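import Pool.Agent.TH996.SM.Core

/-!
# Stable matchings by distances less than `t`: combinatorics
-/

open MeasureTheory ProbabilityTheory Filter
open scoped ENNReal Topology unitInterval

namespace Pool.Agent.TH996.SM

private theorem comb_rad_self {ι : Type} {t : ℝ} {x : ι → ℝ} {m : ι → ι} {i : ι} (h : m i = i) :
    rad t x m i = t := by
  unfold rad; rw [if_pos h]

private theorem comb_rad_ne {ι : Type} {t : ℝ} {x : ι → ℝ} {m : ι → ι} {i : ι} (h : m i ≠ i) :
    rad t x m i = |x (m i) - x i| := by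
  unfold rad; rw [if_neg h]

theorem transport {ι κ : Type} {t : ℝ} {x : ι → ℝ} {y : κ → ℝ} {r : ι → Prop} {r' : κ → Prop}
    {S : Set ι} {m : ι → ι} (h : Stb t x r S m) (φ : ι → κ) (hφ : Set.InjOn φ S)
    (hx : ∀ i ∈ S, ∀ j ∈ S, |x i - x j| = |y (φ i) - y (φ j)|)
    (hr : ∀ i ∈ S, (r i ↔ r' (φ i))) :
    ∃ m' : κ → κ, Stb t y r' (φ '' S) m' ∧ ∀ i ∈ S, m' (φ i) = φ (m i) := by
  classical
  let m' : κ → κ := fun k => if hk : ∃ i, i ∈ S ∧ φ i = k then φ (m hk.choose) else k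
  have hm' : ∀ i ∈ S, m' (φ i) = φ (m i) := by
    intro i hi
    have hk : ∃ i', i' ∈ S ∧ φ i' = φ i := ⟨i, hi, rfl⟩
    have h1 : m' (φ i) = φ (m hk.choose) := dif_pos hk
    rw [h1, hφ hk.choose_spec.1 hi hk.choose_spec.2]
  have hrad : ∀ i ∈ S, rad t y m' (φ i) = rad t x m i := by
    intro i hi
    by_cases hmi : m i = i
    · rw [comb_rad_self hmi, comb_rad_self (by rw [hm' i hi, hmi])]
    · have h2 : m' (φ i) ≠ φ i := by
        rw [hm' i hi]
        intro h3
        exact hmi (hφ (h.mem i hi) hi h3)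
      rw [comb_rad_ne hmi, comb_rad_ne h2, hm' i hi, hx _ (h.mem i hi) _ hi]
  refine ⟨m', ⟨?_, ?_, ?_, ?_, ?_⟩, hm'⟩
  · rintro _ ⟨i, hi, rfl⟩
    rw [hm' i hi]
    exact ⟨m i, h.mem i hi, rfl⟩
  · rintro _ ⟨i, hi, rfl⟩
    rw [hm' i hi, hm' _ (h.mem i hi), h.inv i hi]
  · rintro _ ⟨i, hi, rfl⟩ hne
    rw [hm' i hi] at hne ⊢
    have h2 : m i ≠ i := fun h3 => hne (by rw [h3])
    rcases h.ok i hi h2 with h4 | h4
    · exact Or.inl ((hr i hi).1 h4)
    · exact Or.inr ((hr _ (h.mem i hi)).1 h4)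
  · rintro _ ⟨i, hi, rfl⟩ hne
    rw [hm' i hi] at hne ⊢
    have h2 : m i ≠ i := fun h3 => hne (by rw [h3])
    rw [← hx _ (h.mem i hi) _ hi]
    exact h.lt i hi h2
  · rintro _ ⟨i, hi, rfl⟩ _ ⟨j, hj, rfl⟩ hne hred
    rw [hrad i hi, hrad j hj, ← hx i hi j hj]
    refine h.stab i hi j hj (fun h3 => hne (by rw [h3])) ?_
    rcases hred with h4 | h4
    · exact Or.inl ((hr i hi).2 h4)
    · exact Or.inr ((hr j hj).2 h4)

private theorem comb_uniq_aux {ι : Type} {t : ℝ} {x : ι → ℝ} {r : ι → Prop} {S : Set ι}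
    {m m' : ι → ι} (hg : Gen x S) (h : Stb t x r S m) (h' : Stb t x r S m')
    {i j : ι} (hi : i ∈ S) (hj : j ∈ S) (hij : i ≠ j) (hmi : m i = j) (hmi' : m' i ≠ j)
    (hmin : ∀ a ∈ S, ∀ b ∈ S, a ≠ b → m' a = b → m a ≠ b → |x i - x j| ≤ |x a - x b|) :
    False := by
  have hmj : m j = i := by rw [← hmi]; exact h.inv i hi
  have hlt : |x i - x j| < t := by
    have h1 := h.lt i hi (by rw [hmi]; exact hij.symm)
    rw [hmi, abs_sub_comm] at h1
    exact h1
  have hmj' : m' j ≠ i := by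
    intro h1
    apply hmi'
    rw [← h1]
    exact h'.inv j hj
  have hred : r i ∨ r j := by
    have h1 := h.ok i hi (by rw [hmi]; exact hij.symm)
    rw [hmi] at h1
    exact h1
  refine h'.stab i hi j hj hij hred ⟨?_, ?_⟩
  · by_cases h1 : m' i = i
    · rw [comb_rad_self h1]; exact hlt
    · rw [comb_rad_ne h1]
      have h2 := hmin i hi (m' i) (h'.mem i hi) (Ne.symm h1) rfl
        (by rw [hmi]; exact Ne.symm hmi')
      have h3 := hg i hi j hj (m' i) (h'.mem i hi) hij (Ne.symm h1) (Ne.symm hmi')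
      rw [abs_sub_comm (x (m' i)) (x i)]
      exact lt_of_le_of_ne h2 h3
  · by_cases h1 : m' j = j
    · rw [comb_rad_self h1]; exact hlt
    · rw [comb_rad_ne h1]
      have h2 := hmin j hj (m' j) (h'.mem j hj) (Ne.symm h1) rfl
        (by rw [hmj]; exact Ne.symm hmj')
      have h3 := hg j hj i hi (m' j) (h'.mem j hj) hij.symm (Ne.symm h1) (Ne.symm hmj')
      rw [abs_sub_comm (x (m' j)) (x j)]
      rw [abs_sub_comm (x j) (x i)] at h3
      exact lt_of_le_of_ne h2 h3

theorem unique {ι : Type} {t : ℝ} {x : ι → ℝ} {r : ι → Prop} {S : Set ι} {m m' : ι → ι}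
    (hS : S.Finite) (hg : Gen x S) (h : Stb t x r S m) (h' : Stb t x r S m') :
    ∀ i ∈ S, m i = m' i := by
  classical
  by_contra hcon
  push Not at hcon
  obtain ⟨i0, hi0, hne0⟩ := hcon
  let P : Set (ι × ι) := {p | p.1 ∈ S ∧ p.2 ∈ S ∧ p.1 ≠ p.2 ∧
    ((m p.1 = p.2 ∧ m' p.1 ≠ p.2) ∨ (m' p.1 = p.2 ∧ m p.1 ≠ p.2))}
  have hPfin : P.Finite := (hS.prod hS).subset (fun p hp => ⟨hp.1, hp.2.1⟩)
  have hPne : P.Nonempty := by
    by_cases h1 : m i0 = i0
    · refine ⟨(i0, m' i0), hi0, h'.mem _ hi0, ?_, Or.inr ⟨rfl, hne0⟩⟩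
      intro h2
      exact hne0 (h1.trans h2)
    · exact ⟨(i0, m i0), hi0, h.mem _ hi0, Ne.symm h1, Or.inl ⟨rfl, Ne.symm hne0⟩⟩
  obtain ⟨⟨i, j⟩, ⟨hi, hj, hij, hc⟩, hmin⟩ :=
    hPfin.exists_minimalFor (fun p : ι × ι => |x p.1 - x p.2|) P hPne
  have hmin' : ∀ a ∈ S, ∀ b ∈ S, a ≠ b →
      ((m a = b ∧ m' a ≠ b) ∨ (m' a = b ∧ m a ≠ b)) → |x i - x j| ≤ |x a - x b| := by
    intro a ha b hb hab hc'
    by_contra hlt
    push Not at hlt
    have := hmin (j := (a, b)) ⟨ha, hb, hab, hc'⟩ hlt.le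
    exact absurd this (not_le.2 hlt)
  rcases hc with ⟨h1, h2⟩ | ⟨h1, h2⟩
  · exact comb_uniq_aux hg h h' hi hj hij h1 h2
      (fun a ha b hb hab h3 h4 => hmin' a ha b hb hab (Or.inr ⟨h3, h4⟩))
  · exact comb_uniq_aux hg h' h hi hj hij h1 h2
      (fun a ha b hb hab h3 h4 => hmin' a ha b hb hab (Or.inl ⟨h3, h4⟩))

private theorem comb_exists_aux {ι : Type} (t : ℝ) (x : ι → ℝ) (r : ι → Prop) (n : ℕ) :
    ∀ S : Set ι, S.Finite → S.ncard = n → ∃ m : ι → ι, Stb t x r S m := by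
  classical
  induction n using Nat.strong_induction_on with
  | _ n ih =>
    intro S hS hn
    let P : Set (ι × ι) := {p | p.1 ∈ S ∧ p.2 ∈ S ∧ p.1 ≠ p.2 ∧ (r p.1 ∨ r p.2) ∧
      |x p.1 - x p.2| < t}
    have hPfin : P.Finite := (hS.prod hS).subset (fun p hp => ⟨hp.1, hp.2.1⟩)
    by_cases hPne : P.Nonempty
    · obtain ⟨⟨i, j⟩, ⟨hi, hj, hij, hr, hlt⟩, hmin⟩ :=
        hPfin.exists_minimalFor (fun p : ι × ι => |x p.1 - x p.2|) P hPne
      dsimp only at hi hj hij hr hlt
      have hmin' : ∀ a ∈ S, ∀ b ∈ S, a ≠ b → (r a ∨ r b) → |x i - x j| ≤ |x a - x b| := by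
        intro a ha b hb hab hc'
        by_contra hlt'
        push Not at hlt'
        have := hmin (j := (a, b)) ⟨ha, hb, hab, hc', hlt'.trans hlt⟩ hlt'.le
        exact absurd this (not_le.2 hlt')
      have hcard : (S \ {i, j}).ncard < n := by
        rw [← hn]
        apply Set.ncard_lt_ncard _ hS
        refine ⟨Set.sdiff_subset, fun h1 => ?_⟩
        exact (h1 hi).2 (by simp)
      obtain ⟨m0, h0⟩ := ih _ hcard (S \ {i, j}) (hS.subset Set.sdiff_subset) rfl
      let m : ι → ι := fun k => if k = i then j else if k = j then i else m0 k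
      have hmi : m i = j := by simp [m]
      have hmj : m j = i := by simp [m, hij.symm]
      have hmk : ∀ k ∈ S \ {i, j}, m k = m0 k := by
        intro k hk
        have h1 : k ≠ i := fun h2 => hk.2 (by simp [h2])
        have h2 : k ≠ j := fun h2 => hk.2 (by simp [h2])
        simp [m, h1, h2]
      have hcases : ∀ k ∈ S, k = i ∨ k = j ∨ k ∈ S \ {i, j} := by
        intro k hk
        by_cases h1 : k = i
        · exact Or.inl h1
        by_cases h2 : k = j
        · exact Or.inr (Or.inl h2)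
        · refine Or.inr (Or.inr ⟨hk, ?_⟩)
          simp [h1, h2]
      have hri : rad t x m i = |x i - x j| := by
        rw [comb_rad_ne (by rw [hmi]; exact hij.symm), hmi, abs_sub_comm]
      have hrj : rad t x m j = |x i - x j| := by
        rw [comb_rad_ne (by rw [hmj]; exact hij), hmj]
      have hrk : ∀ k ∈ S \ {i, j}, rad t x m k = rad t x m0 k := by
        intro k hk
        by_cases h1 : m0 k = k
        · rw [comb_rad_self h1, comb_rad_self (by rw [hmk k hk]; exact h1)]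
        · rw [comb_rad_ne h1, comb_rad_ne (by rw [hmk k hk]; exact h1), hmk k hk]
      refine ⟨m, ⟨?_, ?_, ?_, ?_, ?_⟩⟩
      · intro k hk
        rcases hcases k hk with rfl | rfl | h1
        · rw [hmi]; exact hj
        · rw [hmj]; exact hi
        · rw [hmk k h1]; exact (h0.mem k h1).1
      · intro k hk
        rcases hcases k hk with rfl | rfl | h1
        · rw [hmi, hmj]
        · rw [hmj, hmi]
        · rw [hmk k h1, hmk _ (h0.mem k h1), h0.inv k h1]
      · intro k hk hne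
        rcases hcases k hk with rfl | rfl | h1
        · rw [hmi]; exact hr
        · rw [hmj]; exact hr.symm
        · rw [hmk k h1] at hne ⊢
          exact h0.ok k h1 hne
      · intro k hk hne
        rcases hcases k hk with rfl | rfl | h1
        · rw [hmi, abs_sub_comm]; exact hlt
        · rw [hmj]; exact hlt
        · rw [hmk k h1] at hne ⊢
          exact h0.lt k h1 hne
      · intro a ha b hb hab hred
        have hm1 := hmin' a ha b hb hab hred
        rintro ⟨h1, h2⟩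
        rcases hcases a ha with rfl | rfl | ha'
        · rw [hri] at h1; exact absurd h1 (not_lt.2 hm1)
        · rw [hrj] at h1; exact absurd h1 (not_lt.2 hm1)
        rcases hcases b hb with rfl | rfl | hb'
        · rw [hri] at h2; exact absurd h2 (not_lt.2 hm1)
        · rw [hrj] at h2; exact absurd h2 (not_lt.2 hm1)
        rw [hrk a ha'] at h1
        rw [hrk b hb'] at h2
        exact h0.stab a ha' b hb' hab hred ⟨h1, h2⟩
    · refine ⟨id, ⟨fun i hi => hi, fun i _ => rfl, fun i _ h => absurd rfl h,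
        fun i _ h => absurd rfl h, ?_⟩⟩
      intro i hi j hj hij hred h1
      apply hPne
      have h2 : rad t x id i = t := comb_rad_self rfl
      rw [h2] at h1
      exact ⟨(i, j), hi, hj, hij, hred, h1.1⟩

theorem exists_stb {ι : Type} (t : ℝ) (x : ι → ℝ) (r : ι → Prop) {S : Set ι} (hS : S.Finite) :
    ∃ m : ι → ι, Stb t x r S m :=
  comb_exists_aux t x r S.ncard S hS rfl

theorem cut {ι : Type} {t t' : ℝ} {x : ι → ℝ} {r : ι → Prop} {S : Set ι} {m : ι → ι}
    (h : Stb t' x r S m) (ht : t ≤ t') : ∃ m' : ι → ι, Stb t x r S m' ∧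
      ∀ i ∈ S, (m' i = m i ∧ |x (m i) - x i| < t) ∨ (m' i = i ∧ t ≤ |x (m i) - x i|) := by
  classical
  let m' : ι → ι := fun i => if |x (m i) - x i| < t then m i else i
  have hpos : ∀ i, |x (m i) - x i| < t → m' i = m i := fun i hi => if_pos hi
  have hneg : ∀ i, ¬ |x (m i) - x i| < t → m' i = i := fun i hi => if_neg hi
  have hrad : ∀ i ∈ S, rad t x m' i ≤ rad t' x m i := by
    intro i _
    by_cases h1 : |x (m i) - x i| < t
    · by_cases h2 : m i = i
      · rw [comb_rad_self h2, comb_rad_self (by rw [hpos i h1]; exact h2)]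
        exact ht
      · rw [comb_rad_ne h2, comb_rad_ne (by rw [hpos i h1]; exact h2), hpos i h1]
    · rw [comb_rad_self (hneg i h1)]
      by_cases h2 : m i = i
      · rw [comb_rad_self h2]; exact ht
      · rw [comb_rad_ne h2]; exact not_lt.1 h1
  refine ⟨m', ⟨?_, ?_, ?_, ?_, ?_⟩, ?_⟩
  · intro i hi
    by_cases h1 : |x (m i) - x i| < t
    · rw [hpos i h1]; exact h.mem i hi
    · rw [hneg i h1]; exact hi
  · intro i hi
    by_cases h1 : |x (m i) - x i| < t
    · have h2 : |x (m (m i)) - x (m i)| < t := by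
        rw [h.inv i hi, abs_sub_comm]; exact h1
      rw [hpos i h1, hpos _ h2, h.inv i hi]
    · rw [hneg i h1, hneg i h1]
  · intro i hi hne
    by_cases h1 : |x (m i) - x i| < t
    · rw [hpos i h1] at hne ⊢; exact h.ok i hi hne
    · exact absurd (hneg i h1) hne
  · intro i hi hne
    by_cases h1 : |x (m i) - x i| < t
    · rw [hpos i h1]; exact h1
    · exact absurd (hneg i h1) hne
  · intro i hi j hj hij hred h1
    exact h.stab i hi j hj hij hred
      ⟨h1.1.trans_le (hrad i hi), h1.2.trans_le (hrad j hj)⟩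
  · intro i _
    by_cases h1 : |x (m i) - x i| < t
    · exact Or.inl ⟨hpos i h1, h1⟩
    · exact Or.inr ⟨hneg i h1, not_lt.1 h1⟩

theorem mono_set {ι : Type} {t : ℝ} {x : ι → ℝ} {r : ι → Prop} {S S' : Set ι} {m : ι → ι}
    (h : Stb t x r S m) (hs : S' ⊆ S) (hsep : ∀ i ∈ S', ∀ j ∈ S \ S', t ≤ |x i - x j|) :
    Stb t x r S' m := by
  refine ⟨?_, fun i hi => h.inv i (hs hi), fun i hi => h.ok i (hs hi),
    fun i hi => h.lt i (hs hi), fun i hi j hj => h.stab i (hs hi) j (hs hj)⟩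
  intro i hi
  by_contra h1
  have h2 : m i ≠ i := fun h3 => h1 (by rw [h3]; exact hi)
  have h3 := hsep i hi (m i) ⟨h.mem i (hs hi), h1⟩
  have h4 := h.lt i (hs hi) h2
  rw [abs_sub_comm] at h4
  exact absurd h4 (not_lt.2 h3)

end Pool.Agent.TH996.SM
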