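import Pool.Agent.TH996.SM.Core
import Pool.Agent.TH996.SM.Comb

/-!
# A point which is unmatched on both sides is unmatched
(project of helper996 on MP_818a86_pr, file by helper267)
-/

set_option autoImplicit false

open MeasureTheory ProbabilityTheory Filter
open scoped ENNReal Topology unitInterval

namespace Pool.Agent.TH996.SM

namespace Det

/-- the environment to the right of the point `0` -/
def eR (ξ : ℤ → ℝ × Bool) : Env := fun k => ξ (k + 1)

/-- the environment to the left of the origin -/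
def eL (ξ : ℤ → ℝ × Bool) : Env := fun k => ξ (-(k : ℤ) - 1)

lemma pt_nat (ξ : ℤ → ℝ × Bool) (k : ℕ) : pt ξ (k : ℤ) = (ξ 0).1 + pos (eR ξ) k := by
  unfold pt pos
  rw [if_pos (Int.natCast_nonneg k), Int.toNat_natCast, Finset.sum_range_succ', add_comm]
  rfl

lemma pt_neg (ξ : ℤ → ℝ × Bool) {k : ℕ} (hk : 1 ≤ k) : pt ξ (-(k : ℤ)) = -pos (eL ξ) k := by
  unfold pt pos
  rw [if_neg (by omega), neg_neg, Int.toNat_natCast]
  rfl

lemma pos_zero (e : Env) : pos e 0 = 0 := by simp [pos]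

lemma pos_succ (e : Env) (k : ℕ) : pos e (k + 1) = pos e k + (e k).1 := by
  unfold pos
  rw [Finset.sum_range_succ]

lemma pos_mono {e : Env} (he : ∀ k, 0 < (e k).1) : StrictMono (pos e) :=
  strictMono_nat_of_lt_succ fun k => by
    rw [pos_succ]
    linarith [he k]

lemma pos_pos {e : Env} (he : ∀ k, 0 < (e k).1) {k : ℕ} (hk : 1 ≤ k) : 0 < pos e k := by
  have h := pos_mono he (show 0 < k by omega)
  rwa [pos_zero] at h

lemma pos_nonneg {e : Env} (he : ∀ k, 0 < (e k).1) (k : ℕ) : 0 ≤ pos e k := by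
  rcases Nat.eq_zero_or_pos k with h | h
  · rw [h, pos_zero]
  · exact (pos_pos he h).le

variable {ξ : ℤ → ℝ × Bool}

lemma pt_mono (hgap : ∀ z, 0 < (ξ z).1) : StrictMono (pt ξ) := by
  have hR : ∀ k, 0 < (eR ξ k).1 := fun k => hgap _
  have hL : ∀ k, 0 < (eL ξ k).1 := fun k => hgap _
  refine strictMono_int_of_lt_succ fun z => ?_
  rcases lt_or_ge z 0 with hz | hz
  · obtain ⟨k, hk⟩ : ∃ k : ℕ, z = -((k + 1 : ℕ) : ℤ) := ⟨(-z - 1).toNat, by omega⟩
    rw [hk, pt_neg ξ (by omega)]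
    rcases Nat.eq_zero_or_pos k with h0 | h0
    · subst h0
      have h1 : -((0 + 1 : ℕ) : ℤ) + 1 = ((0 : ℕ) : ℤ) := by norm_num
      rw [h1, pt_nat, pos_zero]
      linarith [pos_pos hL (show 1 ≤ 0 + 1 by omega), hgap 0]
    · have h1 : -((k + 1 : ℕ) : ℤ) + 1 = -(k : ℤ) := by push_cast; ring
      rw [h1, pt_neg ξ h0, pos_succ]
      linarith [hL k]
  · obtain ⟨k, hk⟩ : ∃ k : ℕ, z = (k : ℤ) := ⟨z.toNat, by omega⟩
    have h1 : (k : ℤ) + 1 = ((k + 1 : ℕ) : ℤ) := by push_cast; ring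
    rw [hk, h1, pt_nat, pt_nat, pos_succ]
    linarith [hR k]

/-- the combined matching -/
def mm (m1 m2 : ℕ → ℕ) (z : ℤ) : ℤ := if 0 ≤ z then (m1 z.toNat : ℤ) else -(m2 (-z).toNat : ℤ)

lemma mm_nat (m1 m2 : ℕ → ℕ) (k : ℕ) : mm m1 m2 (k : ℤ) = (m1 k : ℤ) := by
  unfold mm
  rw [if_pos (Int.natCast_nonneg k), Int.toNat_natCast]

lemma mm_neg (m1 m2 : ℕ → ℕ) {k : ℕ} (hk : 1 ≤ k) : mm m1 m2 (-(k : ℤ)) = -(m2 k : ℤ) := by
  unfold mm
  rw [if_neg (by omega), neg_neg, Int.toNat_natCast]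

lemma ne_zero {t : ℝ} {x : ℕ → ℝ} {r : ℕ → Prop} {n : ℕ} {m : ℕ → ℕ} (h : Stb t x r (Set.Iic n) m)
    (h0 : m 0 = 0) {k : ℕ} (hk : 1 ≤ k) (hkn : k ≤ n) : 1 ≤ m k := by
  by_contra hcon
  have h1 : m k = 0 := by omega
  have h2 := h.inv k hkn
  rw [h1, h0] at h2
  omega

/-- the combined matching is stable up to distance `t` -/
lemma stb_mm (hgap : ∀ z, 0 < (ξ z).1) (h0 : (ξ 0).2 = false) {t : ℝ} {n n' : ℕ} {m1 m2 : ℕ → ℕ}
    (h1 : Stb t (pos (eR ξ)) (col false (eR ξ)) (Set.Iic n) m1) (h10 : m1 0 = 0)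
    (h2 : Stb t (pos (eL ξ)) (col false (eL ξ)) (Set.Iic n') m2) (h20 : m2 0 = 0) :
    Stb t (pt ξ) (fun z => (ξ z).2 = true) (Set.Icc (-(n' : ℤ)) n) (mm m1 m2) := by
  have hR : ∀ k, 0 < (eR ξ k).1 := fun k => hgap _
  have hL : ∀ k, 0 < (eL ξ k).1 := fun k => hgap _
  -- two kinds of indices
  have hcase : ∀ z ∈ Set.Icc (-(n' : ℤ)) n, (∃ k : ℕ, k ≤ n ∧ z = (k : ℤ)) ∨
      (∃ k : ℕ, 1 ≤ k ∧ k ≤ n' ∧ z = -(k : ℤ)) := by
    intro z hz
    rcases lt_or_ge z 0 with h | h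
    · exact Or.inr ⟨(-z).toNat, by omega, by have := hz.1; omega, by omega⟩
    · exact Or.inl ⟨z.toNat, by have := hz.2; omega, by omega⟩
  have hcolR : ∀ k : ℕ, ((ξ (k : ℤ)).2 = true ↔ col false (eR ξ) k) := by
    intro k
    unfold col
    rcases Nat.eq_zero_or_pos k with h | h
    · subst h
      rw [if_pos rfl]
      show (ξ 0).2 = true ↔ _
      rw [h0]
    · rw [if_neg (by omega)]
      show _ ↔ (ξ (((k - 1 : ℕ) : ℤ) + 1)).2 = true
      rw [show ((k - 1 : ℕ) : ℤ) + 1 = (k : ℤ) by omega]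
  have hcolL : ∀ k : ℕ, 1 ≤ k → ((ξ (-(k : ℤ))).2 = true ↔ col false (eL ξ) k) := by
    intro k hk
    unfold col
    rw [if_neg (by omega)]
    show _ ↔ (ξ (-((k - 1 : ℕ) : ℤ) - 1)).2 = true
    rw [show -((k - 1 : ℕ) : ℤ) - 1 = -(k : ℤ) by omega]
  have hdR : ∀ j k : ℕ, |pt ξ (j : ℤ) - pt ξ (k : ℤ)| = |pos (eR ξ) j - pos (eR ξ) k| := by
    intro j k
    rw [pt_nat, pt_nat]
    congr 1
    ring
  have hdL : ∀ j k : ℕ, 1 ≤ j → 1 ≤ k →
      |pt ξ (-(j : ℤ)) - pt ξ (-(k : ℤ))| = |pos (eL ξ) j - pos (eL ξ) k| := by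
    intro j k hj hk
    rw [pt_neg ξ hj, pt_neg ξ hk, abs_sub_comm]
    congr 1
    ring
  have hradR : ∀ k : ℕ, rad t (pt ξ) (mm m1 m2) (k : ℤ) = rad t (pos (eR ξ)) m1 k := by
    intro k
    unfold rad
    rw [mm_nat, hdR]
    by_cases h : m1 k = k
    · rw [if_pos h, if_pos (by rw [h])]
    · rw [if_neg h, if_neg (by exact_mod_cast h)]
  have hradL : ∀ k : ℕ, 1 ≤ k → k ≤ n' →
      rad t (pt ξ) (mm m1 m2) (-(k : ℤ)) = rad t (pos (eL ξ)) m2 k := by
    intro k hk hkn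
    have h3 := ne_zero h2 h20 hk hkn
    unfold rad
    rw [mm_neg m1 m2 hk, hdL _ _ h3 hk]
    by_cases h : m2 k = k
    · rw [if_pos h, if_pos (by rw [h])]
    · rw [if_neg h, if_neg (by omega)]
  have hr1 : ∀ k : ℕ, k ≤ n → rad t (pos (eR ξ)) m1 k ≤ t := by
    intro k hk
    unfold rad
    split_ifs with h
    · exact le_rfl
    · exact (h1.lt k hk h).le
  have hr2 : ∀ k : ℕ, k ≤ n' → rad t (pos (eL ξ)) m2 k ≤ t := by
    intro k hk
    unfold rad
    split_ifs with h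
    · exact le_rfl
    · exact (h2.lt k hk h).le
  have hr10 : rad t (pos (eR ξ)) m1 0 = t := by
    unfold rad
    rw [if_pos h10]
  have hr20 : rad t (pos (eL ξ)) m2 0 = t := by
    unfold rad
    rw [if_pos h20]
  -- pairs on the two sides
  have hcross : ∀ (i k : ℕ), i ≤ n → 1 ≤ k → k ≤ n' →
      ((ξ (i : ℤ)).2 = true ∨ (ξ (-(k : ℤ))).2 = true) →
      ¬ (|pt ξ (i : ℤ) - pt ξ (-(k : ℤ))| < rad t (pt ξ) (mm m1 m2) (i : ℤ) ∧
        |pt ξ (i : ℤ) - pt ξ (-(k : ℤ))| < rad t (pt ξ) (mm m1 m2) (-(k : ℤ))) := by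
    rintro i k hi hk hkn hred ⟨hd1, hd2⟩
    rw [hradR] at hd1
    rw [hradL k hk hkn] at hd2
    have hpi := pos_nonneg hR i
    have hpk := pos_pos hL hk
    have hg0 := hgap 0
    have hd : |pt ξ (i : ℤ) - pt ξ (-(k : ℤ))| = (ξ 0).1 + pos (eR ξ) i + pos (eL ξ) k := by
      rw [pt_nat, pt_neg ξ hk, abs_of_nonneg (by linarith)]
      ring
    rw [hd] at hd1 hd2
    have ht1 := hr1 i hi
    rcases hred with hred | hred
    · -- the point on the right is red
      have hi0 : 1 ≤ i := by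
        by_contra hcon
        have : i = 0 := by omega
        subst this
        rw [show ((0 : ℕ) : ℤ) = 0 from rfl, h0] at hred
        exact absurd hred (by simp)
      have h4 : |pos (eR ξ) 0 - pos (eR ξ) i| = pos (eR ξ) i := by
        rw [pos_zero, zero_sub, abs_neg, abs_of_nonneg hpi]
      refine h1.stab 0 (Nat.zero_le _) i hi (by omega) (Or.inr ((hcolR i).1 hred)) ⟨?_, ?_⟩
      · rw [h4, hr10]
        linarith
      · rw [h4]
        linarith
    · have h4 : |pos (eL ξ) 0 - pos (eL ξ) k| = pos (eL ξ) k := by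
        rw [pos_zero, zero_sub, abs_neg, abs_of_nonneg hpk.le]
      refine h2.stab 0 (Nat.zero_le _) k hkn (by omega) (Or.inr ((hcolL k hk).1 hred)) ⟨?_, ?_⟩
      · rw [h4, hr20]
        linarith
      · rw [h4]
        linarith
  constructor
  · intro z hz
    rcases hcase z hz with ⟨k, hk, rfl⟩ | ⟨k, hk1, hk, rfl⟩
    · have h3 : m1 k ≤ n := h1.mem k hk
      rw [mm_nat]
      constructor <;> omega
    · have h3 : m2 k ≤ n' := h2.mem k hk
      rw [mm_neg m1 m2 hk1]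
      constructor <;> omega
  · intro z hz
    rcases hcase z hz with ⟨k, hk, rfl⟩ | ⟨k, hk1, hk, rfl⟩
    · rw [mm_nat, mm_nat, h1.inv k hk]
    · rw [mm_neg m1 m2 hk1, mm_neg m1 m2 (ne_zero h2 h20 hk1 hk), h2.inv k hk]
  · intro z hz hne
    rcases hcase z hz with ⟨k, hk, rfl⟩ | ⟨k, hk1, hk, rfl⟩
    · rw [mm_nat] at hne ⊢
      have h3 := h1.ok k hk (by exact_mod_cast hne)
      rcases h3 with h3 | h3
      · exact Or.inl ((hcolR k).2 h3)
      · exact Or.inr ((hcolR _).2 h3)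
    · rw [mm_neg m1 m2 hk1] at hne ⊢
      have h3 := h2.ok k hk (by omega)
      rcases h3 with h3 | h3
      · exact Or.inl ((hcolL k hk1).2 h3)
      · exact Or.inr ((hcolL _ (ne_zero h2 h20 hk1 hk)).2 h3)
  · intro z hz hne
    rcases hcase z hz with ⟨k, hk, rfl⟩ | ⟨k, hk1, hk, rfl⟩
    · rw [mm_nat] at hne ⊢
      rw [hdR]
      exact h1.lt k hk (by exact_mod_cast hne)
    · rw [mm_neg m1 m2 hk1] at hne ⊢
      rw [hdL _ _ (ne_zero h2 h20 hk1 hk) hk1]
      exact h2.lt k hk (by omega)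
  · intro z hz w hw hne hred
    rcases hcase z hz with ⟨i, hi, rfl⟩ | ⟨i, hi1, hi, rfl⟩
    · rcases hcase w hw with ⟨j, hj, rfl⟩ | ⟨j, hj1, hj, rfl⟩
      · rw [hradR, hradR, hdR]
        refine h1.stab i hi j hj (by exact_mod_cast hne) ?_
        rcases hred with h | h
        · exact Or.inl ((hcolR i).1 h)
        · exact Or.inr ((hcolR j).1 h)
      · exact hcross i j hi hj1 hj hred
    · rcases hcase w hw with ⟨j, hj, rfl⟩ | ⟨j, hj1, hj, rfl⟩
      · rintro ⟨hd1, hd2⟩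
        rw [abs_sub_comm] at hd1 hd2
        exact hcross j i hj hi1 hi hred.symm ⟨hd2, hd1⟩
      · rw [hradL i hi1 hi, hradL j hj1 hj, hdL i j hi1 hj1]
        refine h2.stab i hi j hj (by omega) ?_
        rcases hred with h | h
        · exact Or.inl ((hcolL i hi1).1 h)
        · exact Or.inr ((hcolL j hj1).1 h)

open Classical in
/-- the pairs of `M` at distance less than `t`, read on the indices -/
lemma stb_cut (hgap : ∀ z, 0 < (ξ z).1) {M : ℝ → ℝ} (hM : IsStableMatching (pts ξ) (reds ξ) M)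
    {N : ℤ → ℤ} (hN : ∀ z, pt ξ (N z) = M (pt ξ z)) (t : ℝ) :
    Stb t (pt ξ) (fun z => (ξ z).2 = true) Set.univ
      (fun z => if |pt ξ (N z) - pt ξ z| < t then N z else z) := by
  have hinj := (pt_mono hgap).injective
  have hmem : ∀ z, pt ξ z ∈ pts ξ := fun z => ⟨z, rfl⟩
  have hred : ∀ z, (pt ξ z ∈ reds ξ ↔ (ξ z).2 = true) := by
    intro z
    constructor
    · rintro ⟨w, hw, hw2⟩
      rw [hinj hw]
      exact hw2
    · intro h
      exact ⟨z, rfl, h⟩
  have hNN : ∀ z, N (N z) = z := by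
    intro z
    apply hinj
    rw [hN, hN]
    exact hM.inv _ (hmem z)
  have hb : ∀ i j : ℤ, |pt ξ i - pt ξ j| <
      rad t (pt ξ) (fun z => if |pt ξ (N z) - pt ξ z| < t then N z else z) i →
      (M (pt ξ i) = pt ξ i ∨ |pt ξ i - pt ξ j| < |M (pt ξ i) - pt ξ i|) := by
    intro i j hij
    unfold rad at hij
    by_cases hc : |pt ξ (N i) - pt ξ i| < t
    · simp only [if_pos hc] at hij
      by_cases he : N i = i
      · left
        rw [← hN, he]
      · rw [if_neg he] at hij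
        right
        rwa [← hN]
    · simp only [if_neg hc, if_true] at hij
      right
      rw [← hN]
      exact lt_of_lt_of_le hij (not_lt.1 hc)
  constructor
  · intro z _
    trivial
  · intro z _
    by_cases hc : |pt ξ (N z) - pt ξ z| < t
    · have hc' : |pt ξ z - pt ξ (N z)| < t := by rw [abs_sub_comm]; exact hc
      simp only [if_pos hc, hNN, if_pos hc']
    · simp only [if_neg hc]
  · intro z _ hne
    by_cases hc : |pt ξ (N z) - pt ξ z| < t
    · simp only [if_pos hc] at hne ⊢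
      have h1 : M (pt ξ z) ≠ pt ξ z := by
        rw [← hN]
        exact fun h => hne (hinj h)
      rcases hM.ok _ (hmem z) h1 with h | h
      · exact Or.inl ((hred z).1 h)
      · rw [← hN] at h
        exact Or.inr ((hred _).1 h)
    · simp only [if_neg hc] at hne
      exact absurd rfl hne
  · intro z _ hne
    by_cases hc : |pt ξ (N z) - pt ξ z| < t
    · simp only [if_pos hc]
      exact hc
    · simp only [if_neg hc] at hne
      exact absurd rfl hne
  · intro i _ j _ hij hr ⟨h1, h2⟩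
    refine hM.stab _ (hmem i) _ (hmem j) (fun h => hij (hinj h)) ?_ ⟨hb i j h1, ?_⟩
    · rcases hr with h | h
      · exact Or.inl ((hred i).2 h)
      · exact Or.inr ((hred j).2 h)
    · rw [abs_sub_comm] at h2 ⊢
      exact hb j i h2

end Det

open Det

theorem final_det {ξ : ℤ → ℝ × Bool} (hgap : ∀ z, 0 < (ξ z).1) (hgen : Gen (pt ξ) Set.univ)
    (h0 : (ξ 0).2 = false) (hR : ∀ t : ℕ, (fun k : ℕ => ξ (k + 1)) ∈ UU false (t : ℝ))
    (hL : ∀ t : ℕ, (fun k : ℕ => ξ (-(k : ℤ) - 1)) ∈ UU false (t : ℝ)) {M : ℝ → ℝ}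
    (hM : IsStableMatching (pts ξ) (reds ξ) M) : M (pt ξ 0) = pt ξ 0 := by
  classical
  have hN : ∀ z, ∃ w, pt ξ w = M (pt ξ z) := fun z => hM.mem _ ⟨z, rfl⟩
  choose N hN using hN
  obtain ⟨t, ht⟩ := exists_nat_gt |pt ξ (N 0) - pt ξ 0|
  obtain ⟨n, hn, m1, h1, h10⟩ := hR t
  obtain ⟨n', hn', m2, h2, h20⟩ := hL t
  have hmono := pt_mono hgap
  have ha := stb_mm hgap h0 (t := (t : ℝ)) h1 h10 h2 h20
  have hb := mono_set (stb_cut hgap hM hN (t : ℝ)) (Set.subset_univ (Set.Icc (-(n' : ℤ)) n)) (by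
    rintro i ⟨hi1, hi2⟩ j ⟨_, hj⟩
    rw [Set.mem_Icc, not_and_or, not_le, not_le] at hj
    rcases hj with hj | hj
    · -- on the left
      have e1 : pt ξ j ≤ pt ξ (-((n' + 1 : ℕ) : ℤ)) := hmono.monotone (by push_cast; omega)
      have e2 : pt ξ (-(n' : ℤ)) ≤ pt ξ i := hmono.monotone hi1
      have e3 : (t : ℝ) ≤ pt ξ (-(n' : ℤ)) - pt ξ (-((n' + 1 : ℕ) : ℤ)) := by
        have e4 : (t : ℝ) ≤ (eL ξ n').1 := hn'
        rw [pt_neg ξ (k := n' + 1) (by omega), pos_succ]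
        rcases Nat.eq_zero_or_pos n' with h | h
        · subst h
          have e5 : -((0 : ℕ) : ℤ) = ((0 : ℕ) : ℤ) := by norm_num
          rw [e5, pt_nat, pos_zero, pos_zero]
          linarith [hgap 0]
        · rw [pt_neg ξ h]
          linarith
      rw [abs_of_nonneg (by linarith [Nat.cast_nonneg (α := ℝ) t])]
      linarith
    · have e1 : pt ξ ((n + 1 : ℕ) : ℤ) ≤ pt ξ j := hmono.monotone (by push_cast; omega)
      have e2 : pt ξ i ≤ pt ξ (n : ℤ) := hmono.monotone hi2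
      have e3 : (t : ℝ) ≤ pt ξ ((n + 1 : ℕ) : ℤ) - pt ξ (n : ℤ) := by
        have e4 : (t : ℝ) ≤ (eR ξ n).1 := hn
        rw [pt_nat, pt_nat, pos_succ]
        linarith
      rw [abs_sub_comm, abs_of_nonneg (by linarith [Nat.cast_nonneg (α := ℝ) t])]
      linarith)
  have hu := unique (Set.finite_Icc _ _) (fun i _ j _ k _ => hgen i trivial j trivial k trivial)
    ha hb 0 ⟨by omega, by omega⟩
  have h3 : mm m1 m2 0 = 0 := by
    have := mm_nat m1 m2 0
    rw [h10] at this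
    exact this
  rw [h3] at hu
  simp only [if_pos ht] at hu
  rw [← hN 0, ← hu]

end Pool.Agent.TH996.SM

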