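import Pool.Agent.TH996.SM.Core

/-!
# The two-sided configuration (J996-SM-J)
-/

open MeasureTheory ProbabilityTheory Filter
open scoped ENNReal Topology unitInterval

namespace Pool.Agent.TH996.SM

private theorem line_indep {Ω : Type} [MeasurableSpace Ω] {P : Measure Ω}
    {ξ : ℤ → Ω → ℝ × Bool} (hm : ∀ z, Measurable (ξ z)) (hind : iIndepFun ξ P)
    {S T : Set ℤ} (hST : Disjoint S T) {A B : Set Ω}
    (hA : MeasurableSet[⨆ i ∈ S, MeasurableSpace.comap (ξ i) inferInstance] A)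
    (hB : MeasurableSet[⨆ i ∈ T, MeasurableSpace.comap (ξ i) inferInstance] B) :
    P (A ∩ B) = P A * P B := by
  have h := indep_iSup_of_disjoint (m := fun i => MeasurableSpace.comap (ξ i) inferInstance)
    (μ := P) (fun i => (hm i).comap_le) hind hST
  exact (Indep_iff _ _ _).1 h A B hA hB

private theorem line_meas {Ω : Type} 
    {ξ : ℤ → Ω → ℝ × Bool} {S : Set ℤ} (f : ℕ → ℤ) (hf : ∀ k, f k ∈ S) {U : Set Env}
    (hU : MeasurableSet U) :
    MeasurableSet[⨆ i ∈ S, MeasurableSpace.comap (ξ i) inferInstance]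
      {ω | (fun k : ℕ => ξ (f k) ω) ∈ U} := by
  have h : @Measurable _ _ (⨆ i ∈ S, MeasurableSpace.comap (ξ i) inferInstance) _
      (fun (ω : Ω) (k : ℕ) => ξ (f k) ω) := by
    refine @measurable_pi_lambda _ _ _ (_) _ _ (fun k => ?_)
    refine Measurable.mono (comap_measurable (ξ (f k))) ?_ le_rfl
    exact le_iSup₂ (f := fun i (_ : i ∈ S) => MeasurableSpace.comap (ξ i) inferInstance) (f k) (hf k)
  exact h hU

private theorem line_law (p : I) {Ω : Type} [MeasurableSpace Ω] {P : Measure Ω}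
    [IsProbabilityMeasure P]
    {ξ : ℤ → Ω → ℝ × Bool} (hm : ∀ z, Measurable (ξ z)) (hind : iIndepFun ξ P)
    (hlaw : ∀ z, P.map (ξ z) = law p) {U : Set Env} (hU : MeasurableSet U)
    (f : ℕ → ℤ) (hf : Function.Injective f) :
    P {ω | (fun k : ℕ => ξ (f k) ω) ∈ U} = PP p U := by
  have h := (iIndepFun.precomp hf hind).map_fun_eq_infinitePi_map (fun k => hm (f k))
  have h2 : (Measure.infinitePi fun k => P.map (ξ (f k))) = PP p := by
    unfold PP
    simp_rw [hlaw]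
  rw [← h2, ← h, Measure.map_apply (measurable_pi_lambda _ fun k => hm (f k)) hU]
  rfl

private theorem line_zero (p : I) {Ω : Type} [MeasurableSpace Ω] {P : Measure Ω}
    {ξ : ℤ → Ω → ℝ × Bool} (hm : ∀ z, Measurable (ξ z))
    (hlaw : ∀ z, P.map (ξ z) = law p) :
    P {ω | (ξ 0 ω).2 = false} = ENNReal.ofReal (1 - (p : ℝ)) := by
  have hms : MeasurableSet {x : ℝ × Bool | x.2 = false} :=
    measurable_snd (measurableSet_singleton false)
  have h : P {ω | (ξ 0 ω).2 = false} = P.map (ξ 0) {x | x.2 = false} := by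
    rw [Measure.map_apply (hm 0) hms]
    rfl
  have h2 : {x : ℝ × Bool | x.2 = false} = Set.univ ×ˢ {false} := by
    ext x; simp
  rw [h, hlaw, h2, law, Measure.prod_prod, measure_univ, one_mul]
  simp [bern]

theorem line_prob (p : I) {Ω : Type} [MeasurableSpace Ω] {P : Measure Ω} [IsProbabilityMeasure P]
    {ξ : ℤ → Ω → ℝ × Bool} (hm : ∀ z, Measurable (ξ z)) (hind : iIndepFun ξ P)
    (hlaw : ∀ z, P.map (ξ z) = law p) {U : Set Env} (hU : MeasurableSet U) :
    P {ω | (ξ 0 ω).2 = false ∧ (fun k : ℕ => ξ (k + 1) ω) ∈ U ∧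
      (fun k : ℕ => ξ (-(k : ℤ) - 1) ω) ∈ U} =
      ENNReal.ofReal (1 - (p : ℝ)) * PP p U * PP p U := by
  have e : {ω | (ξ 0 ω).2 = false ∧ (fun k : ℕ => ξ (k + 1) ω) ∈ U ∧
      (fun k : ℕ => ξ (-(k : ℤ) - 1) ω) ∈ U} =
      ({ω | (ξ 0 ω).2 = false} ∩ {ω | (fun k : ℕ => ξ ((fun k : ℕ => (k : ℤ) + 1) k) ω) ∈ U}) ∩
      {ω | (fun k : ℕ => ξ ((fun k : ℕ => -(k : ℤ) - 1) k) ω) ∈ U} := by
    ext ω
    simp only [Set.mem_setOf_eq, Set.mem_inter_iff, and_assoc]
  have m0 : ∀ S : Set ℤ, (0 : ℤ) ∈ S →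
      MeasurableSet[⨆ i ∈ S, MeasurableSpace.comap (ξ i) inferInstance]
        {ω | (ξ 0 ω).2 = false} := by
    intro S hS
    refine (le_iSup₂ (f := fun i (_ : i ∈ S) => MeasurableSpace.comap (ξ i) inferInstance) 0 hS) _ ?_
    exact ⟨{x | x.2 = false}, measurable_snd (measurableSet_singleton false), rfl⟩
  have h1 : P (({ω | (ξ 0 ω).2 = false} ∩
      {ω | (fun k : ℕ => ξ ((fun k : ℕ => (k : ℤ) + 1) k) ω) ∈ U}) ∩
      {ω | (fun k : ℕ => ξ ((fun k : ℕ => -(k : ℤ) - 1) k) ω) ∈ U}) =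
      P ({ω | (ξ 0 ω).2 = false} ∩
        {ω | (fun k : ℕ => ξ ((fun k : ℕ => (k : ℤ) + 1) k) ω) ∈ U}) *
      P {ω | (fun k : ℕ => ξ ((fun k : ℕ => -(k : ℤ) - 1) k) ω) ∈ U} := by
    refine line_indep hm hind (S := {z | 0 ≤ z}) (T := {z | z < 0}) ?_ ?_ ?_
    · rw [Set.disjoint_left]
      intro z h1 h2
      simp only [Set.mem_setOf_eq] at h1 h2
      omega
    · refine MeasurableSet.inter (m0 _ (by simp)) (line_meas _ ?_ hU)
      intro k
      simp only [Set.mem_setOf_eq]; omega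
    · refine line_meas _ ?_ hU
      intro k
      simp only [Set.mem_setOf_eq]; omega
  have h2 : P ({ω | (ξ 0 ω).2 = false} ∩
        {ω | (fun k : ℕ => ξ ((fun k : ℕ => (k : ℤ) + 1) k) ω) ∈ U}) =
      P {ω | (ξ 0 ω).2 = false} *
      P {ω | (fun k : ℕ => ξ ((fun k : ℕ => (k : ℤ) + 1) k) ω) ∈ U} := by
    refine line_indep hm hind (S := {0}) (T := {z | 0 < z}) ?_ (m0 _ rfl) (line_meas _ ?_ hU)
    · rw [Set.disjoint_left]
      intro z h1 h2
      simp only [Set.mem_setOf_eq, Set.mem_singleton_iff] at h1 h2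
      omega
    · intro k
      simp only [Set.mem_setOf_eq]; omega
  rw [e, h1, h2, line_zero p hm hlaw,
    line_law p hm hind hlaw hU (fun k : ℕ => (k : ℤ) + 1) (fun a b h => by simpa using h),
    line_law p hm hind hlaw hU (fun k : ℕ => -(k : ℤ) - 1) (fun a b h => by simpa using h)]

end Pool.Agent.TH996.SM
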