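import Mathlib

/-!
# Asymmetric two-type stable matchings on the line (MP_818a86_pr): definitions
-/

open MeasureTheory ProbabilityTheory Filter
open scoped ENNReal Topology unitInterval

namespace Pool.Agent.TH996.SM

/-! ## The objects of the final statement -/

/-- `M` is a stable matching of the points `S` (`M x` is the partner of `x`, `M x = x` if `x` is
unmatched), when a pair is allowed iff at least one of its points is in `red`: there are no two
distinct points `x`, `y` of an allowed pair such that `x` is unmatched or farther from its partner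
than from `y`, and `y` is unmatched or farther from its partner than from `x`. -/
structure IsStableMatching (S red : Set ℝ) (M : ℝ → ℝ) : Prop where
  mem : ∀ x ∈ S, M x ∈ S
  inv : ∀ x ∈ S, M (M x) = x
  ok : ∀ x ∈ S, M x ≠ x → x ∈ red ∨ M x ∈ red
  stab : ∀ x ∈ S, ∀ y ∈ S, x ≠ y → (x ∈ red ∨ y ∈ red) →
    ¬ ((M x = x ∨ |x - y| < |M x - x|) ∧ (M y = y ∨ |x - y| < |M y - y|))

/-- the points of the process with spacings `(ξ z).1`: `pt ξ 0 < pt ξ 1 < ...` are the points to the
right of the origin, `pt ξ (-1) > pt ξ (-2) > ...` the points to the left of the origin -/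
noncomputable def pt (ξ : ℤ → ℝ × Bool) (z : ℤ) : ℝ :=
  if 0 ≤ z then ∑ j ∈ Finset.range (z.toNat + 1), (ξ (j : ℤ)).1
  else -∑ j ∈ Finset.range (-z).toNat, (ξ (-(j : ℤ) - 1)).1

/-- all points -/
def pts (ξ : ℤ → ℝ × Bool) : Set ℝ := Set.range (pt ξ)

/-- the red points: `(ξ z).2` is the colour of `pt ξ z` (`true` is red) -/
def reds (ξ : ℤ → ℝ × Bool) : Set ℝ := {x | ∃ z, x = pt ξ z ∧ (ξ z).2 = true}

/-- law of a colour: red (`true`) with probability `p` -/
noncomputable def bern (p : I) : Measure Bool :=
  ENNReal.ofReal (p : ℝ) • Measure.dirac true + ENNReal.ofReal (1 - (p : ℝ)) • Measure.dirac false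

/-- law of a spacing (exponential of mean 1) and of a colour, independent -/
noncomputable def law (p : I) : Measure (ℝ × Bool) := (expMeasure 1).prod (bern p)

instance : IsProbabilityMeasure (expMeasure 1) := isProbabilityMeasure_expMeasure one_pos

instance (p : I) : IsProbabilityMeasure (bern p) := by
  constructor
  have h := p.2
  simp only [bern, Measure.add_apply, Measure.smul_apply, smul_eq_mul, measure_univ, mul_one]
  rw [← ENNReal.ofReal_add h.1 (by linarith [h.2])]
  simp

instance (p : I) : IsProbabilityMeasure (law p) := by unfold law; infer_instance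

/-! ## Matchings by distances less than `t` -/

open Classical in
/-- distance to the partner, `t` if unmatched -/
noncomputable def rad {ι : Type} (t : ℝ) (x : ι → ℝ) (m : ι → ι) (i : ι) : ℝ :=
  if m i = i then t else |x (m i) - x i|

/-- `m` is a matching of the indices in `S` by pairs at distance less than `t`, stable up to
distance `t` -/
structure Stb {ι : Type} (t : ℝ) (x : ι → ℝ) (red : ι → Prop) (S : Set ι) (m : ι → ι) : Prop where
  mem : ∀ i ∈ S, m i ∈ S
  inv : ∀ i ∈ S, m (m i) = i
  ok : ∀ i ∈ S, m i ≠ i → red i ∨ red (m i)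
  lt : ∀ i ∈ S, m i ≠ i → |x (m i) - x i| < t
  stab : ∀ i ∈ S, ∀ j ∈ S, i ≠ j → (red i ∨ red j) →
    ¬ (|x i - x j| < rad t x m i ∧ |x i - x j| < rad t x m j)

/-- no isosceles triples -/
def Gen {ι : Type} (x : ι → ℝ) (S : Set ι) : Prop :=
  ∀ i ∈ S, ∀ j ∈ S, ∀ k ∈ S, i ≠ j → i ≠ k → j ≠ k → |x i - x j| ≠ |x i - x k|

/-- spacings and colours of the points `1, 2, 3, ...` to the right of the point `0` -/
abbrev Env := ℕ → ℝ × Bool

/-- position of the point `k` -/
noncomputable def pos (e : Env) (k : ℕ) : ℝ := ∑ i ∈ Finset.range k, (e i).1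

/-- the point `k` is red, when the point `0` has colour `c` -/
def col (c : Bool) (e : Env) (k : ℕ) : Prop := if k = 0 then c = true else (e (k - 1)).2 = true

/-- the configuration seen from the point `k` -/
def shift (k : ℕ) (e : Env) : Env := fun i => e (k + i)

/-- the point `0` of colour `c` is not matched by distances less than `t` (`{0, ..., n}` is followed
by a gap of length at least `t`) -/
def UU (c : Bool) (t : ℝ) : Set Env :=
  {e | ∃ n, t ≤ (e n).1 ∧ ∃ m : ℕ → ℕ, Stb t (pos e) (col c e) (Set.Iic n) m ∧ m 0 = 0}

/-- the points `0` and `k`, of colours `c` and `c'`, are not matched by distances less than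
`pos e k` in the configuration `{0, ..., k}` -/
def IE (c c' : Bool) (k : ℕ) : Set Env :=
  {e | ∃ m : ℕ → ℕ, Stb (pos e k) (pos e) (fun i => if i = k then c' = true else col c e i)
    (Set.Iic k) m ∧ m 0 = 0 ∧ m k = k}

/-- almost sure properties of the configuration -/
structure Nice (e : Env) : Prop where
  gap : ∀ i, 0 < (e i).1
  gen : Gen (pos e) Set.univ
  big : ∀ t : ℝ, ∀ N, ∃ n, N ≤ n ∧ t ≤ (e n).1

/-- law of the configuration -/
noncomputable def PP (p : I) : Measure Env := Measure.infinitePi (fun _ => law p)

instance (p : I) : IsProbabilityMeasure (PP p) := by unfold PP; infer_instance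

end Pool.Agent.TH996.SM
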