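import Pool.Agent.TH996.SM.Core

/-!
# Almost sure properties of the configurations: positive gaps, no isosceles triples, large gaps
-/

open MeasureTheory ProbabilityTheory Filter
open scoped ENNReal Topology unitInterval

namespace Pool.Agent.TH996.SM

namespace GenericAux

instance noAtoms_exp : NullSingletonClass (expMeasure 1) := by
  constructor
  intro x
  have h : expMeasure 1 ≪ volume := by
    unfold expMeasure gammaMeasure
    exact withDensity_absolutelyContinuous _ _
  exact h (by simp)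

theorem exp_Iic (t : ℝ) :
    expMeasure 1 (Set.Iic t) = ENNReal.ofReal (if 0 ≤ t then 1 - Real.exp (-(1 * t)) else 0) := by
  rw [← cdf_expMeasure_eq one_pos t, cdf_eq_real, ofReal_measureReal]

theorem exp_pos : ∀ᵐ x ∂(expMeasure 1), 0 < x := by
  rw [ae_iff]
  have h : {x : ℝ | ¬ 0 < x} = Set.Iic 0 := by
    ext x
    simp
  rw [h, exp_Iic]
  simp

theorem exp_Ici (t : ℝ) : 0 < expMeasure 1 (Set.Ici t) := by
  have h1 : expMeasure 1 (Set.Iic t) < 1 := by
    rw [exp_Iic]
    rw [ENNReal.ofReal_lt_one]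
    split_ifs with h
    · have := Real.exp_pos (-(1 * t))
      linarith
    · exact one_pos
  rw [pos_iff_ne_zero]
  intro h0
  have h2 : expMeasure 1 (Set.univ : Set ℝ) ≤ expMeasure 1 (Set.Iic t) + expMeasure 1 (Set.Ici t) := by
    rw [← Set.Iic_union_Ici (a := t)]
    exact measure_union_le _ _
  rw [h0, add_zero, measure_univ] at h2
  exact absurd h1 (not_lt.mpr h2)

theorem law_fst (p : I) : (law p).map Prod.fst = expMeasure 1 := by
  unfold law
  rw [Measure.map_fst_prod, measure_univ, one_smul]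

variable {ι : Type} {Ω : Type} [MeasurableSpace Ω] {P : Measure Ω} [IsProbabilityMeasure P]
  {ξ : ι → Ω → ℝ × Bool}

omit [IsProbabilityMeasure P] in
theorem gap_law (p : I) (hm : ∀ z, Measurable (ξ z)) (hlaw : ∀ z, P.map (ξ z) = law p) (z : ι) :
    P.map (fun ω => (ξ z ω).1) = expMeasure 1 := by
  rw [← law_fst p, ← hlaw z, Measure.map_map measurable_fst (hm z)]
  rfl

omit [IsProbabilityMeasure P] in
theorem gap_pos (p : I) (hm : ∀ z, Measurable (ξ z)) (hlaw : ∀ z, P.map (ξ z) = law p) (z : ι) :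
    ∀ᵐ ω ∂P, 0 < (ξ z ω).1 := by
  have h1 : Measurable fun ω => (ξ z ω).1 := measurable_fst.comp (hm z)
  have h2 := exp_pos
  rw [← gap_law p hm hlaw z] at h2
  exact ae_of_ae_map h1.aemeasurable h2

/-- a nontrivial linear combination of the gaps does not vanish -/
theorem lin_ne (p : I) (hm : ∀ z, Measurable (ξ z)) (hind : iIndepFun ξ P)
    (hlaw : ∀ z, P.map (ξ z) = law p) (s : Finset ι) (a : ι → ℝ) (i0 : ι) (hi0 : i0 ∈ s)
    (ha : a i0 ≠ 0) : ∀ᵐ ω ∂P, ∑ i ∈ s, a i * (ξ i ω).1 ≠ 0 := by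
  classical
  have hg : ∀ i, Measurable fun q : ℝ × Bool => a i * q.1 := fun i =>
    measurable_const.mul measurable_fst
  have hZ : iIndepFun (fun i => (fun q : ℝ × Bool => a i * q.1) ∘ ξ i) P := hind.comp _ hg
  have hZm : ∀ i, Measurable ((fun q : ℝ × Bool => a i * q.1) ∘ ξ i) := fun i =>
    (hg i).comp (hm i)
  have hYZ := hZ.indepFun_finsetSum_of_notMem hZm (Finset.notMem_erase i0 s)
  set Y : Ω → ℝ := ∑ j ∈ s.erase i0, (fun q : ℝ × Bool => a j * q.1) ∘ ξ j with hY
  set Z : Ω → ℝ := (fun q : ℝ × Bool => a i0 * q.1) ∘ ξ i0 with hZdef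
  have hYm : Measurable Y := by
    have h0 : Y = fun ω => ∑ j ∈ s.erase i0, ((fun q : ℝ × Bool => a j * q.1) ∘ ξ j) ω := by
      funext ω
      rw [hY, Finset.sum_apply]
    rw [h0]
    exact Finset.measurable_sum _ fun i _ => hZm i
  have hZm0 : Measurable Z := hZm i0
  have hprod := (indepFun_iff_map_prod_eq_prod_map_map hYm.aemeasurable hZm0.aemeasurable).mp hYZ
  have hsum : ∀ ω, ∑ i ∈ s, a i * (ξ i ω).1 = Y ω + Z ω := by
    intro ω
    rw [← Finset.sum_erase_add s _ hi0, hY, Finset.sum_apply]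
    rfl
  have hZat : NullSingletonClass (P.map Z) := by
    constructor
    intro x
    rw [Measure.map_apply hZm0 (measurableSet_singleton x)]
    have h1 : Z ⁻¹' {x} = (fun ω => (ξ i0 ω).1) ⁻¹' {x / a i0} := by
      ext ω
      simp only [hZdef, Set.mem_preimage, Function.comp_apply, Set.mem_singleton_iff]
      rw [eq_div_iff ha, mul_comm]
    have h3 : Measurable fun ω => (ξ i0 ω).1 := measurable_fst.comp (hm i0)
    rw [h1, ← Measure.map_apply h3 (measurableSet_singleton _), gap_law p hm hlaw i0]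
    exact measure_singleton _
  have hset : MeasurableSet {q : ℝ × ℝ | q.1 + q.2 = 0} :=
    measurableSet_eq_fun (measurable_fst.add measurable_snd) measurable_const
  have hnull : ((P.map Y).prod (P.map Z)) {q : ℝ × ℝ | q.1 + q.2 = 0} = 0 := by
    have : SFinite (P.map Z) := inferInstance
    rw [Measure.prod_apply hset]
    rw [lintegral_eq_zero_iff (measurable_measure_prodMk_left hset)]
    filter_upwards with y
    have h2 : Prod.mk y ⁻¹' {q : ℝ × ℝ | q.1 + q.2 = 0} = {-y} := by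
      ext x
      simp only [Set.mem_preimage, Set.mem_ofPred_eq, Set.mem_singleton_iff]
      constructor
      · intro h; linarith
      · intro h; linarith
    rw [h2]
    exact measure_singleton _
  rw [← hprod, Measure.map_apply (hYm.prodMk hZm0) hset] at hnull
  rw [ae_iff]
  refine measure_mono_null ?_ hnull
  intro ω hω
  simp only [ne_eq, not_not, Set.mem_ofPred_eq] at hω
  rw [hsum] at hω
  exact hω

theorem abs_cases' {x y z : ℝ} (h : |x - y| = |x - z|) : y = z ∨ 2 * x - y - z = 0 := by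
  rcases abs_eq_abs.mp h with h1 | h1
  · left; linarith
  · right; linarith

end GenericAux

open GenericAux

theorem first_gap (p : I) (t : ℝ) : 0 < PP p {e | t ≤ (e 0).1} := by
  have h1 : (PP p).map (fun e => e 0) = law p := by
    unfold PP
    exact Measure.infinitePi_map_eval _ _
  have h2 : {e : Env | t ≤ (e 0).1} = (fun e : Env => e 0) ⁻¹' (Prod.fst ⁻¹' Set.Ici t) := rfl
  have h3 : Measurable fun e : Env => e 0 := measurable_pi_apply 0
  rw [h2, ← Measure.map_apply h3 (measurable_fst measurableSet_Ici), h1,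
    ← Measure.map_apply measurable_fst measurableSet_Ici, law_fst]
  exact exp_Ici t

namespace GenericAux

theorem pos_lin (e : Env) (N k : ℕ) (hk : k ≤ N) :
    pos e k = ∑ m ∈ Finset.range N, (if m < k then (1 : ℝ) else 0) * (e m).1 := by
  unfold pos
  have h : ∀ m, (if m < k then (1 : ℝ) else 0) * (e m).1 = if m < k then (e m).1 else 0 := by
    intro m
    split_ifs <;> simp
  simp only [h]
  rw [← Finset.sum_filter]
  congr 1
  ext m
  simp only [Finset.mem_range, Finset.mem_filter]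
  omega

theorem PP_indep (p : I) : iIndepFun (fun (i : ℕ) (e : Env) => e i) (PP p) := by
  unfold PP
  exact iIndepFun_infinitePi (X := fun _ ω => ω) (by fun_prop)

theorem PP_law (p : I) (i : ℕ) : (PP p).map (fun e => e i) = law p := by
  unfold PP
  exact Measure.infinitePi_map_eval _ _

theorem gen_triple (p : I) (i j k : ℕ) (hij : i ≠ j) (hik : i ≠ k) (hjk : j ≠ k) :
    ∀ᵐ e ∂(PP p), 2 * pos e i - pos e j - pos e k ≠ 0 := by
  set N := max i (max j k) with hN
  have h1 : ∀ e : Env, 2 * pos e i - pos e j - pos e k =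
      ∑ m ∈ Finset.range N, (2 * (if m < i then (1 : ℝ) else 0) - (if m < j then (1 : ℝ) else 0) -
        (if m < k then (1 : ℝ) else 0)) * (e m).1 := by
    intro e
    rw [pos_lin e N i (by omega), pos_lin e N j (by omega), pos_lin e N k (by omega),
      Finset.mul_sum, ← Finset.sum_sub_distrib, ← Finset.sum_sub_distrib]
    apply Finset.sum_congr rfl
    intro m _
    ring
  have hN0 : 0 < N := by omega
  have h2 := lin_ne (ξ := fun (i : ℕ) (e : Env) => e i) p (fun i => measurable_pi_apply i)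
    (PP_indep p) (PP_law p) (Finset.range N)
    (fun m => 2 * (if m < i then (1 : ℝ) else 0) - (if m < j then (1 : ℝ) else 0) -
        (if m < k then (1 : ℝ) else 0)) (N - 1) (by rw [Finset.mem_range]; omega) (by
      have hc : (N = i ∧ j < N ∧ k < N) ∨ (N = j ∧ i < N ∧ k < N) ∨ (N = k ∧ i < N ∧ j < N) := by
        omega
      rcases hc with ⟨a, b, c⟩ | ⟨a, b, c⟩ | ⟨a, b, c⟩
      · rw [if_pos (by omega), if_neg (by omega), if_neg (by omega)]
        norm_num
      · rw [if_neg (by omega), if_pos (by omega), if_neg (by omega)]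
        norm_num
      · rw [if_neg (by omega), if_neg (by omega), if_pos (by omega)]
        norm_num)
  filter_upwards [h2] with e he
  rw [h1]
  exact he

theorem big_ae (p : I) (t : ℝ) : ∀ᵐ e ∂(PP p), ∀ N, ∃ n, N ≤ n ∧ t ≤ (e n).1 := by
  set A : ℕ → Set Env := fun n => {e | t ≤ (e n).1} with hA
  have hAm : ∀ n, MeasurableSet (A n) := fun n =>
    (measurable_fst.comp (measurable_pi_apply n)) measurableSet_Ici
  have hAind : iIndepSet A (PP p) := by
    rw [iIndepSet_iff_meas_biInter hAm]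
    intro s
    exact (iIndepFun_iff_measure_inter_preimage_eq_mul.mp (PP_indep p)) s
      (sets := fun _ => Prod.fst ⁻¹' Set.Ici t)
      (fun i _ => measurable_fst measurableSet_Ici)
  have hAP : ∀ n, PP p (A n) = expMeasure 1 (Set.Ici t) := by
    intro n
    have h2 : A n = (fun e : Env => e n) ⁻¹' (Prod.fst ⁻¹' Set.Ici t) := rfl
    have h3 : Measurable fun e : Env => e n := measurable_pi_apply n
    rw [h2, ← Measure.map_apply h3 (measurable_fst measurableSet_Ici), PP_law, ← Measure.map_apply measurable_fst measurableSet_Ici, law_fst]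
  have hsum : ∑' n, PP p (A n) = ∞ := by
    simp only [hAP]
    exact ENNReal.tsum_const_eq_top_of_ne_zero (exp_Ici t).ne'
  have hlim := measure_limsup_eq_one hAm hAind hsum
  have hlm : MeasurableSet (limsup A atTop) := MeasurableSet.measurableSet_limsup hAm
  have h3 : ∀ᵐ e ∂(PP p), e ∈ limsup A atTop := by
    rw [← prob_compl_eq_zero_iff hlm] at hlim
    rwa [ae_iff]
  filter_upwards [h3] with e he
  rw [mem_limsup_iff_frequently_mem, frequently_atTop] at he
  intro N
  obtain ⟨n, hn, hne⟩ := he N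
  exact ⟨n, hn, hne⟩

end GenericAux

theorem nice_ae (p : I) : ∀ᵐ e ∂(PP p), Nice e := by
  have h1 : ∀ᵐ e ∂(PP p), ∀ i : ℕ, 0 < (e i).1 := by
    rw [ae_all_iff]
    intro i
    exact gap_pos (ξ := fun (i : ℕ) (e : Env) => e i) p (fun i => measurable_pi_apply i) (PP_law p) i
  have h2 : ∀ᵐ e ∂(PP p), ∀ i j k : ℕ, i ≠ j → i ≠ k → j ≠ k →
      2 * pos e i - pos e j - pos e k ≠ 0 := by
    rw [ae_all_iff]; intro i
    rw [ae_all_iff]; intro j
    rw [ae_all_iff]; intro k
    by_cases hij : i = j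
    · filter_upwards with e h; exact absurd hij h
    by_cases hik : i = k
    · filter_upwards with e _ h; exact absurd hik h
    by_cases hjk : j = k
    · filter_upwards with e _ _ h; exact absurd hjk h
    filter_upwards [gen_triple p i j k hij hik hjk] with e he _ _ _
    exact he
  have h3 : ∀ᵐ e ∂(PP p), ∀ T : ℕ, ∀ N, ∃ n, N ≤ n ∧ (T : ℝ) ≤ (e n).1 := by
    rw [ae_all_iff]
    intro T
    exact big_ae p T
  filter_upwards [h1, h2, h3] with e g1 g2 g3
  refine ⟨g1, ?_, ?_⟩
  · intro i _ j _ k _ hij hik hjk h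
    have hmono : StrictMono (pos e) := by
      apply strictMono_nat_of_lt_succ
      intro n
      unfold pos
      rw [Finset.sum_range_succ]
      linarith [g1 n]
    rcases abs_cases' h with h4 | h4
    · exact hjk (hmono.injective h4)
    · exact g2 i j k hij hik hjk h4
  · intro t N
    obtain ⟨T, hT⟩ := exists_nat_ge t
    obtain ⟨n, hn, hne⟩ := g3 T N
    exact ⟨n, hn, hT.trans hne⟩

namespace GenericAux

/-- coefficients of the position of the point `z` -/
def bz (z m : ℤ) : ℝ := if 0 ≤ m ∧ m ≤ z then 1 else if z ≤ m ∧ m ≤ -1 then -1 else 0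

theorem pt_lin (ξ : ℤ → ℝ × Bool) (N : ℕ) (z : ℤ) (h1 : -(N : ℤ) ≤ z) (h2 : z ≤ N) :
    pt ξ z = ∑ m ∈ Finset.Icc (-(N : ℤ)) N, bz z m * (ξ m).1 := by
  unfold pt
  by_cases hz : 0 ≤ z
  · rw [if_pos hz]
    have h3 : ∑ m ∈ Finset.Icc (-(N : ℤ)) N, bz z m * (ξ m).1 =
        ∑ m ∈ Finset.Icc (0 : ℤ) z, (ξ m).1 := by
      symm
      have hsub : Finset.Icc (0 : ℤ) z ⊆ Finset.Icc (-(N : ℤ)) N := by
        intro m hm
        rw [Finset.mem_Icc] at hm ⊢
        omega
      rw [← Finset.sum_subset hsub (f := fun m => bz z m * (ξ m).1)]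
      · apply Finset.sum_congr rfl
        intro m hm
        rw [Finset.mem_Icc] at hm
        rw [bz, if_pos hm, one_mul]
      · intro m _ hm
        rw [Finset.mem_Icc] at hm
        rw [bz, if_neg hm, if_neg (by omega), zero_mul]
    rw [h3]
    refine Finset.sum_bij (fun (j : ℕ) _ => (j : ℤ)) ?_ ?_ ?_ ?_
    · intro j hj
      rw [Finset.mem_range] at hj
      rw [Finset.mem_Icc]
      omega
    · intro a _ b _ h
      exact_mod_cast h
    · intro m hm
      rw [Finset.mem_Icc] at hm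
      exact ⟨m.toNat, by rw [Finset.mem_range]; omega, by omega⟩
    · intro j _
      rfl
  · rw [if_neg hz]
    have h3 : ∑ m ∈ Finset.Icc (-(N : ℤ)) N, bz z m * (ξ m).1 =
        ∑ m ∈ Finset.Icc z (-1), (-1) * (ξ m).1 := by
      symm
      have hsub : Finset.Icc z (-1) ⊆ Finset.Icc (-(N : ℤ)) N := by
        intro m hm
        rw [Finset.mem_Icc] at hm ⊢
        omega
      rw [← Finset.sum_subset hsub (f := fun m => bz z m * (ξ m).1)]
      · apply Finset.sum_congr rfl
        intro m hm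
        rw [Finset.mem_Icc] at hm
        rw [bz, if_neg (by omega), if_pos hm]
      · intro m _ hm
        rw [Finset.mem_Icc] at hm
        rw [bz, if_neg (by omega), if_neg hm, zero_mul]
    rw [h3, ← Finset.mul_sum, neg_one_mul]
    congr 1
    refine Finset.sum_bij (fun (j : ℕ) _ => -(j : ℤ) - 1) ?_ ?_ ?_ ?_
    · intro j hj
      rw [Finset.mem_range] at hj
      rw [Finset.mem_Icc]
      omega
    · intro a _ b _ h
      have h' : -(a : ℤ) - 1 = -(b : ℤ) - 1 := h
      omega
    · intro m hm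
      rw [Finset.mem_Icc] at hm
      exact ⟨(-m - 1).toNat, by rw [Finset.mem_range]; omega, by
        show -(((-m - 1).toNat : ℕ) : ℤ) - 1 = m
        omega⟩
    · intro j _
      rfl

/-- a combination of the positions of distinct points, with nonzero coefficients, has a nonzero
coefficient -/
theorem coef (x y z : ℝ) (hx : x ≠ 0) (hy : y ≠ 0) (hz : z ≠ 0) (i j k : ℤ) (hij : i ≠ j)
    (hik : i ≠ k) (hjk : j ≠ k) :
    ∃ m : ℤ, (m = i ∨ m = j ∨ m = k) ∧ x * bz i m + y * bz j m + z * bz k m ≠ 0 := by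
  have hb1 : ∀ a m : ℤ, 0 ≤ m → a < m → bz a m = 0 := by
    intro a m h1 h2
    rw [bz, if_neg (by omega), if_neg (by omega)]
  have hb2 : ∀ m : ℤ, 0 ≤ m → bz m m = 1 := by
    intro m h1
    rw [bz, if_pos ⟨h1, le_rfl⟩]
  have hb3 : ∀ a m : ℤ, m < 0 → m < a → bz a m = 0 := by
    intro a m h1 h2
    rw [bz, if_neg (by omega), if_neg (by omega)]
  have hb4 : ∀ m : ℤ, m < 0 → bz m m = -1 := by
    intro m h1
    rw [bz, if_neg (by omega), if_pos (by omega)]
  have hc : (0 ≤ i ∧ j < i ∧ k < i) ∨ (0 ≤ j ∧ i < j ∧ k < j) ∨ (0 ≤ k ∧ i < k ∧ j < k) ∨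
      (i < 0 ∧ i < j ∧ i < k) ∨ (j < 0 ∧ j < i ∧ j < k) ∨ (k < 0 ∧ k < i ∧ k < j) := by
    omega
  rcases hc with ⟨a, b, c⟩ | ⟨a, b, c⟩ | ⟨a, b, c⟩ | ⟨a, b, c⟩ | ⟨a, b, c⟩ | ⟨a, b, c⟩
  · refine ⟨i, Or.inl rfl, ?_⟩
    rw [hb2 i a, hb1 j i a b, hb1 k i a c]
    simpa using hx
  · refine ⟨j, Or.inr (Or.inl rfl), ?_⟩
    rw [hb2 j a, hb1 i j a b, hb1 k j a c]
    simpa using hy
  · refine ⟨k, Or.inr (Or.inr rfl), ?_⟩
    rw [hb2 k a, hb1 i k a b, hb1 j k a c]
    simpa using hz
  · refine ⟨i, Or.inl rfl, ?_⟩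
    rw [hb4 i a, hb3 j i a b, hb3 k i a c]
    simpa using hx
  · refine ⟨j, Or.inr (Or.inl rfl), ?_⟩
    rw [hb4 j a, hb3 i j a b, hb3 k j a c]
    simpa using hy
  · refine ⟨k, Or.inr (Or.inr rfl), ?_⟩
    rw [hb4 k a, hb3 i k a b, hb3 j k a c]
    simpa using hz

variable {Ω : Type} [MeasurableSpace Ω] {P : Measure Ω} [IsProbabilityMeasure P]
  {ξ : ℤ → Ω → ℝ × Bool}

theorem line_triple (p : I) (hm : ∀ z, Measurable (ξ z)) (hind : iIndepFun ξ P)
    (hlaw : ∀ z, P.map (ξ z) = law p) (i j k : ℤ) (hij : i ≠ j) (hik : i ≠ k) (hjk : j ≠ k) :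
    ∀ᵐ ω ∂P, 2 * pt (fun z => ξ z ω) i - pt (fun z => ξ z ω) j - pt (fun z => ξ z ω) k ≠ 0 := by
  obtain ⟨m0, hm0, hne⟩ := coef 2 (-1) (-1) (by norm_num) (by norm_num) (by norm_num) i j k
    hij hik hjk
  set N : ℕ := i.natAbs + j.natAbs + k.natAbs with hN
  have h2 := lin_ne p hm hind hlaw (Finset.Icc (-(N : ℤ)) N)
    (fun m => 2 * bz i m + (-1) * bz j m + (-1) * bz k m) m0
    (by rw [Finset.mem_Icc]; omega) hne
  filter_upwards [h2] with ω hω
  rw [pt_lin (fun z => ξ z ω) N i (by omega) (by omega),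
    pt_lin (fun z => ξ z ω) N j (by omega) (by omega),
    pt_lin (fun z => ξ z ω) N k (by omega) (by omega),
    Finset.mul_sum, ← Finset.sum_sub_distrib, ← Finset.sum_sub_distrib]
  refine fun h => hω ?_
  rw [← h]
  apply Finset.sum_congr rfl
  intro m _
  ring

theorem pt_mono (ξ : ℤ → ℝ × Bool) (h : ∀ z, 0 < (ξ z).1) : StrictMono (pt ξ) := by
  apply strictMono_int_of_lt_succ
  intro n
  rcases lt_trichotomy n (-1) with h1 | h1 | h1
  · unfold pt
    rw [if_neg (by omega), if_neg (by omega)]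
    have h2 : (-n).toNat = (-(n + 1)).toNat + 1 := by omega
    rw [h2, Finset.sum_range_succ]
    linarith [h (-(((-(n + 1)).toNat : ℕ) : ℤ) - 1)]
  · subst h1
    unfold pt
    simp only [Int.reduceNeg, Int.reduceLE, ↓reduceIte, neg_neg, Int.toNat_one,
      Finset.range_one, Finset.sum_singleton, neg_add_cancel, le_refl, Int.toNat_zero, zero_add,
      Nat.cast_zero, neg_zero, zero_sub]
    linarith [h 0, h (-1)]
  · unfold pt
    rw [if_pos (by omega), if_pos (by omega)]
    have h2 : (n + 1).toNat = n.toNat + 1 := by omega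
    rw [h2, Finset.sum_range_succ _ (n.toNat + 1)]
    linarith [h (((n.toNat + 1 : ℕ)) : ℤ)]

end GenericAux

theorem line_ae (p : I) {Ω : Type} [MeasurableSpace Ω] {P : Measure Ω} [IsProbabilityMeasure P]
    {ξ : ℤ → Ω → ℝ × Bool} (hm : ∀ z, Measurable (ξ z)) (hind : iIndepFun ξ P)
    (hlaw : ∀ z, P.map (ξ z) = law p) :
    ∀ᵐ ω ∂P, (∀ z, 0 < (ξ z ω).1) ∧ Gen (pt (fun z => ξ z ω)) Set.univ := by
  have h1 : ∀ᵐ ω ∂P, ∀ z : ℤ, 0 < (ξ z ω).1 := by
    rw [ae_all_iff]
    intro i
    exact gap_pos p hm hlaw i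
  have h2 : ∀ᵐ ω ∂P, ∀ i j k : ℤ, i ≠ j → i ≠ k → j ≠ k →
      2 * pt (fun z => ξ z ω) i - pt (fun z => ξ z ω) j - pt (fun z => ξ z ω) k ≠ 0 := by
    rw [ae_all_iff]; intro i
    rw [ae_all_iff]; intro j
    rw [ae_all_iff]; intro k
    by_cases hij : i = j
    · filter_upwards with e h; exact absurd hij h
    by_cases hik : i = k
    · filter_upwards with e _ h; exact absurd hik h
    by_cases hjk : j = k
    · filter_upwards with e _ _ h; exact absurd hjk h
    filter_upwards [line_triple p hm hind hlaw i j k hij hik hjk] with e he _ _ _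
    exact he
  filter_upwards [h1, h2] with ω g1 g2
  refine ⟨g1, ?_⟩
  intro i _ j _ k _ hij hik hjk h
  rcases abs_cases' h with h4 | h4
  · exact hjk ((pt_mono (fun z => ξ z ω) g1).injective h4)
  · exact g2 i j k hij hik hjk h4

end Pool.Agent.TH996.SM
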