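import Pool.Agent.TH996.SM.Core

/-!
# Independence of the past and of the shifted configuration (MP_818a86_pr)
-/

set_option autoImplicit false

open MeasureTheory ProbabilityTheory Filter
open scoped ENNReal Topology unitInterval

namespace Pool.Agent.TH996.SM

private lemma Indep_meas_shift (k : ℕ) : Measurable (shift k) := by
  unfold shift
  exact measurable_pi_iff.2 fun i => measurable_pi_apply _

private lemma Indep_map_shift (p : I) (k : ℕ) : (PP p).map (shift k) = PP p := by
  unfold PP
  refine Measure.eq_infinitePi _ ?_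
  intro s t ht
  rw [Measure.map_apply (Indep_meas_shift k) (.pi s.countable_toSet fun i _ => ht i)]
  have h : shift k ⁻¹' (Set.pi s t) =
      Set.pi (s.map (addLeftEmbedding k)) (fun j => t (j - k)) := by
    ext e
    simp only [shift, Set.mem_preimage, Set.mem_pi, Finset.coe_map, Set.mem_image, Finset.mem_coe,
      forall_exists_index, and_imp, forall_apply_eq_imp_iff₂, addLeftEmbedding_apply]
    refine forall₂_congr fun a _ => ?_
    rw [show k + a - k = a by omega]
  rw [h, Measure.infinitePi_pi _ (fun j _ => ht _), Finset.prod_map]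
  refine Finset.prod_congr rfl fun i _ => ?_
  rw [addLeftEmbedding_apply, Nat.add_sub_cancel_left]

theorem indep_shift (p : I) (k : ℕ) {A : Set (Fin k → ℝ × Bool)} (hA : MeasurableSet A)
    {U : Set Env} (hU : MeasurableSet U) :
    PP p {e | (fun i : Fin k => e i) ∈ A ∧ shift k e ∈ U} =
      PP p {e | (fun i : Fin k => e i) ∈ A} * PP p U := by
  let m : ℕ → MeasurableSpace Env := fun i =>
    MeasurableSpace.comap (fun e : Env => e i) inferInstance
  have hm : ∀ i, m i ≤ (inferInstance : MeasurableSpace Env) := fun i =>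
    (measurable_pi_apply i).comap_le
  have h1 : iIndepFun (fun (i : ℕ) (e : Env) => e i) (PP p) := by
    unfold PP
    exact iIndepFun_infinitePi (P := fun _ : ℕ => law p) (X := fun _ ω => ω) (fun _ => measurable_id)
  have h2 : iIndep m (PP p) := h1
  have h3 : Indep (⨆ i ∈ Set.Iio k, m i) (⨆ i ∈ Set.Ici k, m i) (PP p) :=
    indep_iSup_of_disjoint hm h2 (Set.disjoint_left.2 fun i hi hi' => by
      have := Set.mem_Iio.1 hi
      have := Set.mem_Ici.1 hi'
      omega)
  have h4 : MeasurableSet[⨆ i ∈ Set.Iio k, m i] {e : Env | (fun i : Fin k => e i) ∈ A} := by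
    have h5 : @Measurable _ _ (⨆ i ∈ Set.Iio k, m i) _ (fun (e : Env) (i : Fin k) => e i) := by
      refine @measurable_pi_lambda _ _ _ (⨆ i ∈ Set.Iio k, m i) _ _ fun i => ?_
      have h6 : @Measurable _ _ (m i) _ (fun e : Env => e i) := comap_measurable _
      exact h6.mono (le_iSup₂_of_le (i : ℕ) i.2 le_rfl) le_rfl
    exact h5 hA
  have h7 : MeasurableSet[⨆ i ∈ Set.Ici k, m i] {e : Env | shift k e ∈ U} := by
    have h5 : @Measurable _ _ (⨆ i ∈ Set.Ici k, m i) _ (shift k) := by
      refine @measurable_pi_lambda _ _ _ (⨆ i ∈ Set.Ici k, m i) _ _ fun i => ?_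
      have h6 : @Measurable _ _ (m (k + i)) _ (fun e : Env => e (k + i)) := comap_measurable _
      exact h6.mono (le_iSup₂_of_le (k + i) (Set.mem_Ici.2 (Nat.le_add_right _ _)) le_rfl) le_rfl
    exact h5 hU
  have h8 := (Indep_iff _ _ _).1 h3 _ _ h4 h7
  have h9 : PP p {e : Env | shift k e ∈ U} = PP p U := by
    conv_rhs => rw [← Indep_map_shift p k]
    rw [Measure.map_apply (Indep_meas_shift k) hU]
    rfl
  rw [h9] at h8
  exact h8

end Pool.Agent.TH996.SM
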