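import Pool.Agent.TH996.SM.Comb

/-!
# Joining two configurations (J996-SM-C, helper329)
-/

open MeasureTheory ProbabilityTheory Filter
open scoped ENNReal Topology unitInterval

namespace Pool.Agent.TH996.SM

namespace Join

lemma pos_succ (e : Env) (i : ℕ) : pos e (i + 1) = pos e i + (e i).1 := Finset.sum_range_succ _ _

lemma pos_zero (e : Env) : pos e 0 = 0 := by simp [pos]

lemma pos_mono {e : Env} (he : Nice e) : StrictMono (pos e) :=
  strictMono_nat_of_lt_succ fun i => by
    rw [pos_succ]
    linarith [he.gap i]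

lemma pos_shift (e : Env) (k j : ℕ) : pos (shift k e) j = pos e (k + j) - pos e k := by
  unfold pos shift
  rw [Finset.sum_range_add]
  ring

/-- the data of the joining -/
structure Dat (e : Env) (t : ℝ) (k : ℕ) (N : ℕ → ℕ) (n : ℕ) (M : ℕ → ℕ) : Prop where
  nice : Nice e
  hk : 1 ≤ k
  kt : pos e k < t
  blue : (e (k - 1)).2 = false
  hN : Stb (pos e k) (pos e) (fun i => if i = k then false = true else col true e i)
    (Set.Iic k) N
  N0 : N 0 = 0
  Nk : N k = k
  gap : t ≤ (e (k + n)).1
  hM : Stb t (pos (shift k e)) (col false (shift k e)) (Set.Iic n) M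
  M0 : M 0 = 0

lemma exists_dat {e : Env} (he : Nice e) {t : ℝ} {k : ℕ} (hk : 1 ≤ k) (h1 : pos e k < t)
    (h2 : (e (k - 1)).2 = false) (h3 : e ∈ IE true false k) (h4 : shift k e ∈ UU false t) :
    ∃ N n M, Dat e t k N n M := by
  obtain ⟨N, hN, N0, Nk⟩ := h3
  obtain ⟨n, hn, M, hM, M0⟩ := h4
  exact ⟨N, n, M, he, hk, h1, h2, hN, N0, Nk, hn, hM, M0⟩

section

variable {e : Env} {t : ℝ} {k : ℕ} {N : ℕ → ℕ} {n : ℕ} {M : ℕ → ℕ} (D : Dat e t k N n M)

include D

lemma col_k (c : Bool) : ¬ col c e k := by
  have := D.hk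
  unfold col
  rw [if_neg (by omega), D.blue]
  simp

lemma col_shift {j : ℕ} : col false (shift k e) j ↔ col false e (k + j) := by
  rcases Nat.eq_zero_or_pos j with h | h
  · subst h
    rw [add_zero]
    have h1 := col_k D false
    have h2 : ¬ col false (shift k e) 0 := by simp [col]
    exact ⟨fun h => absurd h h2, fun h => absurd h h1⟩
  · unfold col shift
    rw [if_neg (by omega), if_neg (by omega)]
    have : k + (j - 1) = k + j - 1 := by omega
    rw [this]

lemma N_lt {i : ℕ} (hi : i < k) : N i < k := by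
  have h1 : N i ≤ k := D.hN.mem i hi.le
  rcases h1.eq_or_lt with h2 | h2
  · have h3 := D.hN.inv i (show i ∈ Set.Iic k from hi.le)
    rw [h2, D.Nk] at h3
    omega
  · exact h2

lemma N_pos {i : ℕ} (hi : 0 < i) (hi' : i < k) : 0 < N i := by
  rcases Nat.eq_zero_or_pos (N i) with h2 | h2
  · have h3 := D.hN.inv i (show i ∈ Set.Iic k from hi'.le)
    rw [h2, D.N0] at h3
    omega
  · exact h2

lemma pk_pos : 0 < pos e k := by
  have := pos_mono D.nice (show 0 < k from D.hk)
  rwa [pos_zero] at this

lemma radN_le {y : ℕ} (hy : 0 < y) (hy' : y < k) : rad (pos e k) (pos e) N y ≤ pos e y := by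
  have hyk := pos_mono D.nice hy'
  have hy0 := pos_mono D.nice hy
  rw [pos_zero] at hy0
  have h1 := D.hN.stab 0 (show 0 ∈ Set.Iic k from Nat.zero_le _) y
    (show y ∈ Set.Iic k from hy'.le) (by omega) (Or.inl (by
      have := D.hk
      rw [if_neg (by omega)]
      simp [col]))
  rw [pos_zero, zero_sub, abs_neg, abs_of_pos hy0] at h1
  by_contra hcon
  push Not at hcon
  refine h1 ⟨?_, hcon⟩
  unfold rad
  rw [if_pos D.N0]
  exact hyk

lemma N_ne {y : ℕ} (hy : 0 < y) (hy' : y < k) : N y ≠ y := by
  intro h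
  have h1 := radN_le D hy hy'
  unfold rad at h1
  rw [if_pos h] at h1
  have := pos_mono D.nice hy'
  linarith

lemma radN_le' {y : ℕ} (hy : 0 < y) (hy' : y < k) (hr : col false e y) :
    rad (pos e k) (pos e) N y ≤ pos e k - pos e y := by
  have hyk := pos_mono D.nice hy'
  have hy0 := pos_mono D.nice hy
  rw [pos_zero] at hy0
  have h1 := D.hN.stab y (show y ∈ Set.Iic k from hy'.le) k
    (show k ∈ Set.Iic k from le_refl k) (by omega) (Or.inl (by
      rw [if_neg (by omega)]
      unfold col at hr ⊢
      rw [if_neg (by omega)] at hr ⊢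
      exact hr))
  rw [abs_sub_comm, abs_of_pos (by linarith : 0 < pos e k - pos e y)] at h1
  by_contra hcon
  push Not at hcon
  refine h1 ⟨hcon, ?_⟩
  unfold rad
  rw [if_pos D.Nk]
  linarith

lemma stabN {i j : ℕ} (hi : 0 < i) (hij : i < j) (hj : j < k) (hr : col false e i ∨ col false e j) :
    ¬ (pos e j - pos e i < rad (pos e k) (pos e) N i ∧
      pos e j - pos e i < rad (pos e k) (pos e) N j) := by
  have hp := pos_mono D.nice hij
  have h1 := D.hN.stab i (show i ∈ Set.Iic k from (hij.trans hj).le) j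
    (show j ∈ Set.Iic k from hj.le) (by omega) (by
      rw [if_neg (by omega), if_neg (by omega)]
      unfold col at hr ⊢
      rw [if_neg (by omega), if_neg (by omega)] at hr ⊢
      exact hr)
  rwa [abs_sub_comm, abs_of_pos (by linarith : 0 < pos e j - pos e i)] at h1

lemma stabM0 {j : ℕ} (hj : 0 < j) (hj' : j ≤ n) (hr : col false e (k + j))
    (h1 : pos e (k + j) - pos e k < t)
    (h2 : pos e (k + j) - pos e k < rad t (pos (shift k e)) M j) : False := by
  have hp := pos_mono D.nice (show k < k + j by omega)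
  have h3 := D.hM.stab 0 (show 0 ∈ Set.Iic n from Nat.zero_le _) j
    (show j ∈ Set.Iic n from hj') (by omega) (Or.inr ((col_shift D).2 hr))
  rw [pos_shift, pos_shift, add_zero, sub_self, zero_sub, abs_neg,
    abs_of_pos (by linarith : 0 < pos e (k + j) - pos e k)] at h3
  refine h3 ⟨?_, h2⟩
  unfold rad
  rw [if_pos D.M0]
  exact h1

lemma stabM {i j : ℕ} (hij : i < j) (hj' : j ≤ n)
    (hr : col false e (k + i) ∨ col false e (k + j)) :
    ¬ (pos e (k + j) - pos e (k + i) < rad t (pos (shift k e)) M i ∧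
      pos e (k + j) - pos e (k + i) < rad t (pos (shift k e)) M j) := by
  have hp := pos_mono D.nice (show k + i < k + j by omega)
  have h3 := D.hM.stab i (show i ∈ Set.Iic n from (hij.trans_le hj').le) j
    (show j ∈ Set.Iic n from hj') (by omega) (by rwa [col_shift D, col_shift D])
  rw [pos_shift, pos_shift] at h3
  have e1 : |pos e (k + i) - pos e k - (pos e (k + j) - pos e k)| =
      pos e (k + j) - pos e (k + i) := by
    rw [show pos e (k + i) - pos e k - (pos e (k + j) - pos e k) =
      -(pos e (k + j) - pos e (k + i)) by ring, abs_neg, abs_of_pos (by linarith)]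
  rwa [e1] at h3

lemma M_pos {j : ℕ} (hj : 0 < j) (hj' : j ≤ n) : 0 < M j := by
  rcases Nat.eq_zero_or_pos (M j) with h2 | h2
  · have h3 := D.hM.inv j (show j ∈ Set.Iic n from hj')
    rw [h2, D.M0] at h3
    omega
  · exact h2

/-- a joined matching: it is `N` below `k` and `M` above `k` -/
def IsJoin (k : ℕ) (N : ℕ → ℕ) (n : ℕ) (M m : ℕ → ℕ) : Prop :=
  (∀ i, 0 < i → i < k → m i = N i) ∧ (∀ j, 0 < j → j ≤ n → m (k + j) = k + M j)

lemma rad_lo {m : ℕ → ℕ} (hm : IsJoin k N n M m) {i : ℕ} (hi : 0 < i) (hi' : i < k) :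
    rad t (pos e) m i = rad (pos e k) (pos e) N i := by
  unfold rad
  rw [hm.1 i hi hi', if_neg (N_ne D hi hi'), if_neg (N_ne D hi hi')]

omit D in
lemma rad_hi {m : ℕ → ℕ} (hm : IsJoin k N n M m) {j : ℕ} (hj : 0 < j) (hj' : j ≤ n) :
    rad t (pos e) m (k + j) = rad t (pos (shift k e)) M j := by
  unfold rad
  rw [hm.2 j hj hj', pos_shift, pos_shift]
  have h1 : (k + M j = k + j) ↔ (M j = j) := by omega
  by_cases h : M j = j
  · rw [if_pos h, if_pos (h1.2 h)]
  · rw [if_neg h, if_neg (fun h' => h (h1.1 h'))]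
    congr 1
    ring

omit D in
lemma col_ne {c c' : Bool} {i : ℕ} (hi : i ≠ 0) : col c e i ↔ col c' e i := by
  unfold col
  rw [if_neg hi, if_neg hi]

/-- stability of the joined matching for all pairs except those containing `0` or `k` -/
lemma stab_main {m : ℕ → ℕ} (hm : IsJoin k N n M m) {i j : ℕ} (hi : 0 < i) (hij : i < j)
    (hj : j ≤ k + n) (hik : i ≠ k) (hr : col false e i ∨ col false e j) :
    ¬ (pos e j - pos e i < rad t (pos e) m i ∧ pos e j - pos e i < rad t (pos e) m j) := by
  rcases lt_trichotomy j k with hjk | hjk | hjk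
  · rw [rad_lo D hm hi (hij.trans hjk), rad_lo D hm (hi.trans hij) hjk]
    exact stabN D hi hij hjk hr
  · subst hjk
    rintro ⟨h1, -⟩
    rw [rad_lo D hm hi hij] at h1
    rcases hr with hr | hr
    · have := radN_le' D hi hij hr
      linarith
    · exact col_k D false hr
  · obtain ⟨j', rfl⟩ := Nat.exists_eq_add_of_lt hjk
    rw [add_assoc] at hj hr hij ⊢
    rcases lt_or_gt_of_ne hik with hik' | hik'
    · rintro ⟨h1, h2⟩
      rw [rad_lo D hm hi hik'] at h1
      rw [rad_hi hm (by omega) (by omega)] at h2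
      have p1 := pos_mono D.nice (show k < k + (j' + 1) by omega)
      have p2 := pos_mono D.nice hik'
      have q1 := radN_le D hi hik'
      rcases hr with hr | hr
      · have := radN_le' D hi hik' hr
        linarith
      · exact stabM0 D (by omega) (by omega) hr (by linarith [D.kt]) (by linarith)
    · obtain ⟨i', rfl⟩ := Nat.exists_eq_add_of_lt hik'
      rw [add_assoc] at hij hr ⊢
      rw [rad_hi hm (by omega) (by omega), rad_hi hm (by omega) (by omega)]
      exact stabM D (by omega) (by omega) hr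

end

lemma stab_symm {x : ℕ → ℝ} (hx : StrictMono x) {S : Set ℕ} {red : ℕ → Prop} {R : ℕ → ℝ}
    (h : ∀ i ∈ S, ∀ j ∈ S, i < j → (red i ∨ red j) → ¬ (x j - x i < R i ∧ x j - x i < R j)) :
    ∀ i ∈ S, ∀ j ∈ S, i ≠ j → (red i ∨ red j) → ¬ (|x i - x j| < R i ∧ |x i - x j| < R j) := by
  intro i hi j hj hij hr
  rcases lt_or_gt_of_ne hij with h1 | h1
  · have := hx h1
    rw [abs_sub_comm, abs_of_pos (by linarith : 0 < x j - x i)]
    exact h i hi j hj h1 hr
  · have := hx h1
    rw [abs_of_pos (by linarith : 0 < x i - x j), and_comm]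
    exact h j hj i hi h1 hr.symm

/-- the joined matching, `0` and `k` unmatched -/
def J (k : ℕ) (N M : ℕ → ℕ) (i : ℕ) : ℕ := if i < k then N i else k + M (i - k)

/-- the joined matching, `0` and `k` matched -/
def J' (k : ℕ) (N M : ℕ → ℕ) (i : ℕ) : ℕ := if i = 0 then k else if i = k then 0 else J k N M i

section

variable {e : Env} {t : ℝ} {k : ℕ} {N : ℕ → ℕ} {n : ℕ} {M : ℕ → ℕ} (D : Dat e t k N n M)

lemma J_lo {i : ℕ} (hi : i < k) : J k N M i = N i := if_pos hi

lemma J_hi (j : ℕ) : J k N M (k + j) = k + M j := by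
  unfold J
  rw [if_neg (by omega), Nat.add_sub_cancel_left]

lemma isJoin_J : IsJoin k N n M (J k N M) := ⟨fun _ _ hi => J_lo hi, fun j _ _ => J_hi j⟩

lemma isJoin_J' : IsJoin k N n M (J' k N M) := by
  refine ⟨fun i h1 h2 => ?_, fun j h1 h2 => ?_⟩
  · unfold J'
    rw [if_neg (by omega), if_neg (by omega), J_lo h2]
  · unfold J'
    rw [if_neg (by omega), if_neg (by omega), J_hi]

include D

lemma stb_J : Stb t (pos e) (col false e) (Set.Iic (k + n)) (J k N M) := by
  have hk := D.hk
  have hm : IsJoin k N n M (J k N M) := isJoin_J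
  have J0 : J k N M 0 = 0 := by rw [J_lo (by omega), D.N0]
  have Jk : J k N M k = k := by
    have := J_hi (k := k) (N := N) (M := M) 0
    rw [add_zero, D.M0, add_zero] at this
    exact this
  refine ⟨?_, ?_, ?_, ?_, ?_⟩
  · intro i hi
    have hi' : i ≤ k + n := hi
    rcases lt_or_ge i k with h | h
    · rw [J_lo h]
      have := N_lt D h
      show N i ≤ k + n
      omega
    · obtain ⟨j, rfl⟩ := Nat.exists_eq_add_of_le h
      rw [J_hi]
      have : M j ≤ n := D.hM.mem j (show j ≤ n by omega)
      show k + M j ≤ k + n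
      omega
  · intro i hi
    have hi' : i ≤ k + n := hi
    rcases lt_or_ge i k with h | h
    · rw [J_lo h, J_lo (N_lt D h)]
      exact D.hN.inv i (show i ≤ k by omega)
    · obtain ⟨j, rfl⟩ := Nat.exists_eq_add_of_le h
      rw [J_hi, J_hi, D.hM.inv j (show j ≤ n by omega)]
  · intro i hi hne
    have hi' : i ≤ k + n := hi
    rcases lt_or_ge i k with h | h
    · rw [J_lo h] at hne ⊢
      have h0 : i ≠ 0 := by
        rintro rfl
        exact hne D.N0
      have h1 := N_pos D (Nat.pos_of_ne_zero h0) h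
      have h2 := N_lt D h
      have h3 := D.hN.ok i (show i ≤ k by omega) hne
      rw [if_neg (by omega), if_neg (by omega)] at h3
      rw [col_ne (c := false) (c' := true) h0, col_ne (c := false) (c' := true) h1.ne']
      exact h3
    · obtain ⟨j, rfl⟩ := Nat.exists_eq_add_of_le h
      rw [J_hi] at hne ⊢
      have h3 := D.hM.ok j (show j ≤ n by omega) (by omega)
      rwa [col_shift D, col_shift D] at h3
  · intro i hi hne
    have hi' : i ≤ k + n := hi
    rcases lt_or_ge i k with h | h
    · rw [J_lo h] at hne ⊢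
      have h3 := D.hN.lt i (show i ≤ k by omega) hne
      exact h3.trans D.kt
    · obtain ⟨j, rfl⟩ := Nat.exists_eq_add_of_le h
      rw [J_hi] at hne ⊢
      have h3 := D.hM.lt j (show j ≤ n by omega) (by omega)
      rw [pos_shift, pos_shift] at h3
      rw [show pos e (k + M j) - pos e (k + j) =
        pos e (k + M j) - pos e k - (pos e (k + j) - pos e k) by ring]
      exact h3
  · refine stab_symm (pos_mono D.nice) ?_
    intro i hi j hj hij hr
    have hj' : j ≤ k + n := hj
    have hc0 : ¬ col false e 0 := by simp [col]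
    rcases Nat.eq_zero_or_pos i with h0 | h0
    · subst h0
      have hrj : col false e j := hr.resolve_left hc0
      have pj := pos_mono D.nice hij
      rw [pos_zero] at pj ⊢
      rw [sub_zero]
      rintro ⟨h1, h2⟩
      rcases lt_trichotomy j k with hjk | hjk | hjk
      · rw [rad_lo D hm hij hjk] at h2
        have := radN_le D hij hjk
        linarith
      · subst hjk
        exact col_k D false hrj
      · obtain ⟨j', rfl⟩ := Nat.exists_eq_add_of_lt hjk
        rw [add_assoc] at hj' hrj h1 h2
        rw [rad_hi hm (by omega) (by omega)] at h2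
        have h3 : rad t (pos e) (J k N M) 0 = t := by
          unfold rad
          rw [if_pos J0]
        rw [h3] at h1
        have := pk_pos D
        exact stabM0 D (by omega) (by omega) hrj (by linarith) (by linarith)
    · by_cases hik : i = k
      · subst hik
        rintro ⟨h1, h2⟩
        have hrj : col false e j := hr.resolve_left (col_k D false)
        obtain ⟨j', rfl⟩ := Nat.exists_eq_add_of_lt hij
        rw [add_assoc] at hj' hrj h1 h2
        rw [rad_hi hm (by omega) (by omega)] at h2
        have h3 : rad t (pos e) (J i N M) i = t := by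
          unfold rad
          rw [if_pos Jk]
        rw [h3] at h1
        exact stabM0 D (by omega) (by omega) hrj h1 h2
      · exact stab_main D hm h0 hij hj' hik hr

lemma J_zero : J k N M 0 = 0 := by
  have := D.hk
  rw [J_lo (by omega), D.N0]

lemma stb_J' : Stb t (pos e) (col true e) (Set.Iic (k + n)) (J' k N M) := by
  have hk := D.hk
  have hm : IsJoin k N n M (J' k N M) := isJoin_J'
  have J0 : J' k N M 0 = k := if_pos rfl
  have Jk : J' k N M k = 0 := by
    unfold J'
    rw [if_neg (by omega), if_pos rfl]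
  have hJ := stb_J D
  have hpk := pk_pos D
  have hJJ : ∀ i, i ≠ 0 → i ≠ k → J' k N M i = J k N M i := by
    intro i h1 h2
    unfold J'
    rw [if_neg h1, if_neg h2]
  have hJ0 : J k N M 0 = 0 := J_zero D
  have hJk : J k N M k = k := by
    have := J_hi (k := k) (N := N) (M := M) 0
    rw [add_zero, D.M0, add_zero] at this
    exact this
  have hne0 : ∀ i ∈ Set.Iic (k + n), i ≠ 0 → J k N M i ≠ 0 := by
    intro i hi h1 h2
    have := hJ.inv i hi
    rw [h2, hJ0] at this
    exact h1 this.symm
  have hnek : ∀ i ∈ Set.Iic (k + n), i ≠ k → J k N M i ≠ k := by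
    intro i hi h1 h2
    have := hJ.inv i hi
    rw [h2, hJk] at this
    exact h1 this.symm
  have R0 : rad t (pos e) (J' k N M) 0 = pos e k := by
    unfold rad
    rw [J0, if_neg (by omega), pos_zero, sub_zero, abs_of_pos hpk]
  have Rk : rad t (pos e) (J' k N M) k = pos e k := by
    unfold rad
    rw [Jk, if_neg (by omega), pos_zero, zero_sub, abs_neg, abs_of_pos hpk]
  refine ⟨?_, ?_, ?_, ?_, ?_⟩
  · intro i hi
    by_cases h0 : i = 0
    · subst h0
      rw [J0]
      show k ≤ k + n
      omega
    by_cases hk' : i = k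
    · subst hk'
      rw [Jk]
      show 0 ≤ i + n
      omega
    · rw [hJJ i h0 hk']
      exact hJ.mem i hi
  · intro i hi
    by_cases h0 : i = 0
    · subst h0
      rw [J0, Jk]
    by_cases hk' : i = k
    · subst hk'
      rw [Jk, J0]
    · rw [hJJ i h0 hk', hJJ _ (hne0 i hi h0) (hnek i hi hk')]
      exact hJ.inv i hi
  · intro i hi hne
    by_cases h0 : i = 0
    · subst h0
      left
      simp [col]
    by_cases hk' : i = k
    · subst hk'
      right
      rw [Jk]
      simp [col]
    · rw [hJJ i h0 hk'] at hne ⊢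
      have h3 := hJ.ok i hi hne
      rwa [col_ne (c := false) (c' := true) h0,
        col_ne (c := false) (c' := true) (hne0 i hi h0)] at h3
  · intro i hi hne
    by_cases h0 : i = 0
    · subst h0
      rw [J0, pos_zero, sub_zero, abs_of_pos hpk]
      exact D.kt
    by_cases hk' : i = k
    · subst hk'
      rw [Jk, pos_zero, zero_sub, abs_neg, abs_of_pos hpk]
      exact D.kt
    · rw [hJJ i h0 hk'] at hne ⊢
      exact hJ.lt i hi hne
  · refine stab_symm (pos_mono D.nice) ?_
    intro i hi j hj hij hr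
    have hj' : j ≤ k + n := hj
    rcases Nat.eq_zero_or_pos i with h0 | h0
    · subst h0
      have pj := pos_mono D.nice hij
      rw [pos_zero] at pj ⊢
      rw [sub_zero, R0]
      rintro ⟨h1, h2⟩
      have hjk : j < k := (pos_mono D.nice).lt_iff_lt.1 h1
      rw [rad_lo D hm hij hjk] at h2
      have := radN_le D hij hjk
      linarith
    · have hr' : col false e i ∨ col false e j := by
        rwa [col_ne (c := false) (c' := true) h0.ne',
          col_ne (c := false) (c' := true) (h0.trans hij).ne']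
      by_cases hik : i = k
      · subst hik
        rintro ⟨h1, h2⟩
        have hrj : col false e j := hr'.resolve_left (col_k D false)
        obtain ⟨j', rfl⟩ := Nat.exists_eq_add_of_lt hij
        rw [add_assoc] at hj' hrj h1 h2
        rw [rad_hi hm (by omega) (by omega)] at h2
        rw [Rk] at h1
        exact stabM0 D (by omega) (by omega) hrj (by linarith [D.kt]) h2
      · exact stab_main D hm h0 hij hj' hik hr'

end

end Join

open Join

theorem join_mem {e : Env} (he : Nice e) {t : ℝ} {k : ℕ} (hk : 1 ≤ k) (h1 : pos e k < t)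
    (h2 : (e (k - 1)).2 = false) (h3 : e ∈ IE true false k) (h4 : shift k e ∈ UU false t) :
    e ∈ UU false t := by
  obtain ⟨N, n, M, D⟩ := exists_dat he hk h1 h2 h3 h4
  exact ⟨k + n, D.gap, J k N M, stb_J D, J_zero D⟩

theorem join_unique {e : Env} (he : Nice e) {t : ℝ} {k l : ℕ} (hk : 1 ≤ k) (hl : 1 ≤ l)
    (h1 : pos e k < t) (h2 : (e (k - 1)).2 = false) (h3 : e ∈ IE true false k)
    (h4 : shift k e ∈ UU false t) (h1' : pos e l < t) (h2' : (e (l - 1)).2 = false)
    (h3' : e ∈ IE true false l) (h4' : shift l e ∈ UU false t) : k = l := by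
  obtain ⟨N, n, M, D⟩ := exists_dat he hk h1 h2 h3 h4
  obtain ⟨N', n', M', D'⟩ := exists_dat he hl h1' h2' h3' h4'
  have S := stb_J' D
  have S' := stb_J' D'
  have key : ∀ {a b : ℕ} {m : ℕ → ℕ}, t ≤ (e a).1 → a ≤ b →
      Stb t (pos e) (col true e) (Set.Iic b) m → Stb t (pos e) (col true e) (Set.Iic a) m := by
    intro a b m hg hab h
    refine mono_set h (Set.Iic_subset_Iic.2 hab) ?_
    rintro i hi j ⟨-, hj⟩
    have hi' : i ≤ a := hi
    have hj' : a < j := not_le.1 hj
    have p1 : pos e i ≤ pos e a := (pos_mono he).monotone hi'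
    have p2 : pos e (a + 1) ≤ pos e j := (pos_mono he).monotone hj'
    rw [pos_succ] at p2
    rw [abs_sub_comm]
    exact (by linarith : t ≤ pos e j - pos e i).trans (le_abs_self _)
  have hgen : ∀ a : ℕ, Gen (pos e) (Set.Iic a) := fun a i _ j _ l _ =>
    he.gen i (Set.mem_univ _) j (Set.mem_univ _) l (Set.mem_univ _)
  have J0 : J' k N M 0 = k := if_pos rfl
  have J0' : J' l N' M' 0 = l := if_pos rfl
  rcases le_total (k + n) (l + n') with h | h
  · have h5 := unique (Set.finite_Iic _) (hgen _) S (key D.gap h S') 0 (Nat.zero_le _)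
    rwa [J0, J0'] at h5
  · have h5 := unique (Set.finite_Iic _) (hgen _) (key D'.gap h S) S' 0 (Nat.zero_le _)
    rwa [J0, J0'] at h5

end Pool.Agent.TH996.SM
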