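import Pool.Agent.TH996.SM.Core

/-!
# Measurability of the events of `TH996/SM/Core.lean` (job 4103)
-/

open MeasureTheory ProbabilityTheory Filter
open scoped ENNReal Topology unitInterval

namespace Pool.Agent.TH996.SM

private theorem meas_stb_congr {t : ℝ} {x x' : ℕ → ℝ} {red red' : ℕ → Prop} {S : Set ℕ}
    {m m' : ℕ → ℕ} (hx : ∀ i ∈ S, x i = x' i) (hr : ∀ i ∈ S, red i ↔ red' i)
    (hm : ∀ i ∈ S, m i = m' i) (h : Stb t x red S m) : Stb t x' red' S m' := by
  have hmem : ∀ i ∈ S, m' i ∈ S := fun i hi => hm i hi ▸ h.mem i hi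
  have hrad : ∀ i ∈ S, rad t x' m' i = rad t x m i := by
    intro i hi
    unfold rad
    rw [← hm i hi, ← hx i hi, ← hx (m i) (h.mem i hi)]
  refine ⟨hmem, ?_, ?_, ?_, ?_⟩
  · intro i hi
    rw [← hm i hi, ← hm (m i) (h.mem i hi)]
    exact h.inv i hi
  · intro i hi hne
    rw [← hm i hi] at hne ⊢
    rw [← hr i hi, ← hr (m i) (h.mem i hi)]
    exact h.ok i hi hne
  · intro i hi hne
    rw [← hm i hi] at hne ⊢
    rw [← hx i hi, ← hx (m i) (h.mem i hi)]
    exact h.lt i hi hne
  · intro i hi j hj hij hrr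
    rw [hrad i hi, hrad j hj, ← hx i hi, ← hx j hj]
    exact h.stab i hi j hj hij (by rwa [hr i hi, hr j hj])

private theorem meas_stb {Ω : Type*} [MeasurableSpace Ω] (t : Ω → ℝ) (x : Ω → ℕ → ℝ)
    (red : Ω → ℕ → Prop) (ht : Measurable t) (hx : ∀ i, Measurable fun ω => x ω i)
    (hr : ∀ i, Measurable fun ω => red ω i) (S : Set ℕ) (m : ℕ → ℕ) :
    Measurable fun ω => Stb (t ω) (x ω) (red ω) S m := by
  have hrad : ∀ i, Measurable fun ω => rad (t ω) (x ω) m i := by
    intro i
    by_cases h : m i = i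
    · simpa only [rad, if_pos h] using ht
    · simp only [rad, if_neg h]
      exact ((hx (m i)).sub (hx i)).abs
  have hlt : ∀ f g : Ω → ℝ, Measurable f → Measurable g → Measurable fun ω => f ω < g ω :=
    fun f g hf hg => measurableSet_setOfPred.1 (measurableSet_lt hf hg)
  have heq : (fun ω => Stb (t ω) (x ω) (red ω) S m) = fun ω =>
      ((∀ i, i ∈ S → m i ∈ S) ∧ (∀ i, i ∈ S → m (m i) = i)) ∧
      (∀ i, i ∈ S → m i ≠ i → red ω i ∨ red ω (m i)) ∧
      (∀ i, i ∈ S → m i ≠ i → |x ω (m i) - x ω i| < t ω) ∧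
      (∀ i, i ∈ S → ∀ j, j ∈ S → i ≠ j → (red ω i ∨ red ω j) →
        ¬ (|x ω i - x ω j| < rad (t ω) (x ω) m i ∧ |x ω i - x ω j| < rad (t ω) (x ω) m j)) := by
    funext ω
    apply propext
    constructor
    · intro h
      exact ⟨⟨h.mem, h.inv⟩, h.ok, h.lt, h.stab⟩
    · rintro ⟨⟨h1, h2⟩, h3, h4, h5⟩
      exact ⟨h1, h2, h3, h4, h5⟩
  rw [heq]
  refine Measurable.and measurable_const (Measurable.and ?_ (Measurable.and ?_ ?_))
  · refine Measurable.forall fun i => Measurable.imp measurable_const
      (Measurable.imp measurable_const (Measurable.or (hr i) (hr (m i))))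
  · refine Measurable.forall fun i => Measurable.imp measurable_const
      (Measurable.imp measurable_const (hlt _ _ ((hx (m i)).sub (hx i)).abs ht))
  · refine Measurable.forall fun i => Measurable.imp measurable_const
      (Measurable.forall fun j => Measurable.imp measurable_const
        (Measurable.imp measurable_const (Measurable.imp (Measurable.or (hr i) (hr j))
          (Measurable.not (Measurable.and (hlt _ _ ((hx i).sub (hx j)).abs (hrad i))
            (hlt _ _ ((hx i).sub (hx j)).abs (hrad j)))))))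

private def measEx (n : ℕ) (μ : Fin (n + 1) → ℕ) (i : ℕ) : ℕ :=
  if h : i < n + 1 then μ ⟨i, h⟩ else 0

private theorem meas_stb_ex {Ω : Type*} [MeasurableSpace Ω] (t : Ω → ℝ) (x : Ω → ℕ → ℝ)
    (red : Ω → ℕ → Prop) (ht : Measurable t) (hx : ∀ i, Measurable fun ω => x ω i)
    (hr : ∀ i, Measurable fun ω => red ω i) (n : ℕ) (Q : (ℕ → ℕ) → Prop)
    (hQ : ∀ m m' : ℕ → ℕ, (∀ i ≤ n, m i = m' i) → Q m → Q m') :
    MeasurableSet {ω | ∃ m : ℕ → ℕ, Stb (t ω) (x ω) (red ω) (Set.Iic n) m ∧ Q m} := by
  have heq : {ω | ∃ m : ℕ → ℕ, Stb (t ω) (x ω) (red ω) (Set.Iic n) m ∧ Q m} =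
      ⋃ μ : Fin (n + 1) → ℕ, {ω | Stb (t ω) (x ω) (red ω) (Set.Iic n) (measEx n μ) ∧
        Q (measEx n μ)} := by
    ext ω
    simp only [Set.mem_ofPred_eq, Set.mem_iUnion]
    constructor
    · rintro ⟨m, h1, h2⟩
      have key : ∀ i ≤ n, m i = measEx n (fun i => m i) i := by
        intro i hi
        rw [measEx, dif_pos (by omega)]
      exact ⟨fun i => m i, meas_stb_congr (fun _ _ => rfl) (fun _ _ => Iff.rfl)
        (fun i hi => key i hi) h1, hQ _ _ key h2⟩
    · rintro ⟨μ, h1, h2⟩
      exact ⟨_, h1, h2⟩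
  rw [heq]
  refine MeasurableSet.iUnion fun μ => ?_
  exact measurableSet_setOfPred.2 (Measurable.and (meas_stb t x red ht hx hr _ _) measurable_const)

private theorem meas_pos (k : ℕ) : Measurable fun e : Env => pos e k := by
  unfold pos
  exact Finset.measurable_fun_sum _ fun i _ => (measurable_pi_apply i).fst

private theorem meas_color (i : ℕ) (b : Bool) : Measurable fun e : Env => (e i).2 = b := by
  have h : Measurable fun e : Env => (e i).2 := (measurable_pi_apply i).snd
  exact measurableSet_setOfPred.1 (h (measurableSet_singleton b))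

private theorem meas_col (c : Bool) (k : ℕ) : Measurable fun e : Env => col c e k := by
  unfold col
  by_cases h : k = 0
  · simp only [if_pos h]
    exact measurable_const
  · simp only [if_neg h]
    exact meas_color _ _

theorem measurable_UU (c : Bool) (t : ℝ) : MeasurableSet (UU c t) := by
  have heq : UU c t = ⋃ n : ℕ, ({e : Env | t ≤ (e n).1} ∩
      {e : Env | ∃ m : ℕ → ℕ, Stb t (pos e) (col c e) (Set.Iic n) m ∧ m 0 = 0}) := by
    ext e
    simp [UU]
  rw [heq]
  refine MeasurableSet.iUnion fun n => MeasurableSet.inter ?_ ?_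
  · exact measurableSet_le measurable_const (measurable_pi_apply n).fst
  · exact meas_stb_ex (fun _ : Env => t) pos (col c) measurable_const meas_pos (meas_col c) n
      (fun m => m 0 = 0) (fun m m' h h0 => by
        have h1 := h 0 (Nat.zero_le _)
        omega)

/-- the event `IE` is measurable -/
theorem measurable_IE (c c' : Bool) (k : ℕ) : MeasurableSet (IE c c' k) := by
  unfold IE
  refine meas_stb_ex (fun e : Env => pos e k) pos
    (fun e i => if i = k then c' = true else col c e i) (meas_pos k) meas_pos ?_ k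
      (fun m => m 0 = 0 ∧ m k = k) (fun m m' h h0 => by
        have h1 := h 0 (Nat.zero_le _)
        have h2 := h k le_rfl
        omega)
  intro i
  by_cases h : i = k
  · simp only [if_pos h]
    exact measurable_const
  · simp only [if_neg h]
    exact meas_col c i

private def measExt (k : ℕ) (a : Fin k → ℝ × Bool) : Env :=
  fun i => if h : i < k then a ⟨i, h⟩ else (0, false)

private theorem meas_measExt (k : ℕ) : Measurable (measExt k) := by
  refine measurable_pi_lambda _ fun i => ?_
  by_cases h : i < k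
  · simp only [measExt, dif_pos h]
    exact measurable_pi_apply _
  · simp only [measExt, dif_neg h]
    exact measurable_const

private theorem meas_pos_congr {e e' : Env} {k : ℕ} (h : ∀ i < k, e i = e' i) {j : ℕ}
    (hj : j ≤ k) : pos e j = pos e' j := by
  unfold pos
  refine Finset.sum_congr rfl fun i hi => ?_
  rw [h i (lt_of_lt_of_le (Finset.mem_range.1 hi) hj)]

private theorem meas_IE_congr {e e' : Env} {k : ℕ} (c c' : Bool) (h : ∀ i < k, e i = e' i)
    (he : e ∈ IE c c' k) : e' ∈ IE c c' k := by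
  obtain ⟨m, h1, h2⟩ := he
  refine ⟨m, ?_, h2⟩
  rw [← meas_pos_congr h le_rfl]
  refine meas_stb_congr (fun i hi => meas_pos_congr h hi) (fun i hi => ?_) (fun _ _ => rfl) h1
  by_cases hik : i = k
  · simp only [if_pos hik]
  · simp only [if_neg hik]
    have hi' : i ≤ k := hi
    unfold col
    by_cases h0 : i = 0
    · simp only [if_pos h0]
    · simp only [if_neg h0]
      rw [h (i - 1) (by omega)]

theorem IE_cylinder (c c' : Bool) (k : ℕ) (s t : ℝ) (b : Bool) (hk : 1 ≤ k) :
    ∃ A : Set (Fin k → ℝ × Bool), MeasurableSet A ∧ ∀ e : Env,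
      ((fun i : Fin k => e i) ∈ A ↔
        s ≤ pos e k ∧ pos e k < t ∧ (e (k - 1)).2 = b ∧ e ∈ IE c c' k) := by
  refine ⟨measExt k ⁻¹' {e | s ≤ pos e k ∧ pos e k < t ∧ (e (k - 1)).2 = b ∧ e ∈ IE c c' k},
    ?_, ?_⟩
  · refine meas_measExt k (measurableSet_setOfPred.2 ?_)
    refine Measurable.and (measurableSet_setOfPred.1 (measurableSet_le measurable_const (meas_pos k)))
      (Measurable.and (measurableSet_setOfPred.1 (measurableSet_lt (meas_pos k) measurable_const))
        (Measurable.and (meas_color _ _) (measurableSet_setOfPred.1 ?_)))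
    exact measurable_IE c c' k
  · intro e
    have h : ∀ i < k, measExt k (fun i : Fin k => e i) i = e i := by
      intro i hi
      simp only [measExt, dif_pos hi]
    simp only [Set.mem_preimage, Set.mem_ofPred_eq]
    rw [meas_pos_congr h le_rfl, h (k - 1) (by omega)]
    exact and_congr_right fun _ => and_congr_right fun _ => and_congr_right fun _ =>
      ⟨meas_IE_congr c c' h, meas_IE_congr c c' fun i hi => (h i hi).symm⟩

end Pool.Agent.TH996.SM
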