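import Pool.Agent.TH996.SM.Core
import Pool.Agent.TH996.SM.Meas

/-!
# Reversal symmetry (job 4105)
-/

open MeasureTheory ProbabilityTheory Filter
open scoped ENNReal Topology unitInterval

namespace Pool.Agent.TH996.SM

namespace RevAux

theorem reflect {k : ℕ} {t C : ℝ} {x y : ℕ → ℝ} {r r' : ℕ → Prop} {m : ℕ → ℕ}
    (h : Stb t x r (Set.Iic k) m) (hxy : ∀ i ≤ k, y i = C - x (k - i))
    (hr : ∀ i ≤ k, (r' i ↔ r (k - i))) :
    Stb t y r' (Set.Iic k) (fun i => k - m (k - i)) := by
  have hm : ∀ i, m (k - i) ≤ k := fun i => h.mem (k - i) (Nat.sub_le k i)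
  have hkm : ∀ i, k - (k - m (k - i)) = m (k - i) := fun i => Nat.sub_sub_self (hm i)
  have hne : ∀ i ≤ k, (k - m (k - i) = i ↔ m (k - i) = k - i) := by
    intro i hi
    have := hm i
    omega
  have hy : ∀ i ≤ k, y (k - m (k - i)) - y i = -(x (m (k - i)) - x (k - i)) := by
    intro i hi
    rw [hxy i hi, hxy (k - m (k - i)) (Nat.sub_le _ _), hkm i]
    ring
  have hrad : ∀ i ≤ k, rad t y (fun i => k - m (k - i)) i = rad t x m (k - i) := by
    intro i hi
    unfold rad
    by_cases hc : m (k - i) = k - i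
    · rw [if_pos ((hne i hi).2 hc), if_pos hc]
    · rw [if_neg (fun h' => hc ((hne i hi).1 h')), if_neg hc, hy i hi, abs_neg]
  refine ⟨fun i _ => Nat.sub_le _ _, ?_, ?_, ?_, ?_⟩
  · intro i hi
    have hi' : i ≤ k := hi
    show k - m (k - (k - m (k - i))) = i
    rw [hkm i, h.inv (k - i) (Nat.sub_le k i)]
    omega
  · intro i hi hn
    have hi' : i ≤ k := hi
    have h1 := h.ok (k - i) (Nat.sub_le k i) (fun h' => hn ((hne i hi').2 h'))
    rcases h1 with h1 | h1
    · exact Or.inl ((hr i hi').2 h1)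
    · refine Or.inr ((hr _ (Nat.sub_le _ _)).2 ?_)
      rw [hkm i]
      exact h1
  · intro i hi hn
    have hi' : i ≤ k := hi
    have h1 := h.lt (k - i) (Nat.sub_le k i) (fun h' => hn ((hne i hi').2 h'))
    show |y (k - m (k - i)) - y i| < t
    rw [hy i hi', abs_neg]
    exact h1
  · intro i hi j hj hij hrr
    have hi' : i ≤ k := hi
    have hj' : j ≤ k := hj
    have e1 : |y i - y j| = |x (k - i) - x (k - j)| := by
      rw [hxy i hi', hxy j hj', ← abs_neg]
      congr 1
      ring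
    rw [hrad i hi', hrad j hj', e1]
    refine h.stab (k - i) (Nat.sub_le k i) (k - j) (Nat.sub_le k j) (by omega) ?_
    rcases hrr with h' | h'
    · exact Or.inl ((hr i hi').1 h')
    · exact Or.inr ((hr j hj').1 h')

theorem congr' {k : ℕ} {t : ℝ} {x : ℕ → ℝ} {r r' : ℕ → Prop} {m : ℕ → ℕ}
    (h : Stb t x r (Set.Iic k) m) (hr : ∀ i ≤ k, (r' i ↔ r i)) :
    Stb t x r' (Set.Iic k) m := by
  refine ⟨h.mem, h.inv, ?_, h.lt, ?_⟩
  · intro i hi hn
    rcases h.ok i hi hn with h1 | h1
    · exact Or.inl ((hr i hi).2 h1)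
    · exact Or.inr ((hr _ (h.mem i hi)).2 h1)
  · intro i hi j hj hij hrr
    refine h.stab i hi j hj hij ?_
    rcases hrr with h' | h'
    · exact Or.inl ((hr i hi).1 h')
    · exact Or.inr ((hr j hj).1 h')

/-- gaps and colours of all the points -/
abbrev W (k : ℕ) : Type := (Fin k → ℝ) × (Fin (k + 1) → Bool)

noncomputable def QQ (p : I) (k : ℕ) : Measure (W k) :=
  (Measure.pi fun _ : Fin k => expMeasure 1).prod (Measure.pi fun _ : Fin (k + 1) => bern p)

def FF (k : ℕ) (x : Bool × Env) : W k :=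
  (fun i => (x.2 i).1, Fin.cons x.1 (fun i : Fin k => (x.2 i).2))

theorem mp_restrict (p : I) (k : ℕ) :
    MeasurePreserving (fun (e : Env) (i : Fin k) => e i) (PP p)
      (Measure.pi fun _ : Fin k => law p) := by
  have hmeas : Measurable (fun (e : Env) (i : Fin k) => e i) :=
    measurable_pi_lambda _ fun i => measurable_pi_apply _
  refine ⟨hmeas, (Measure.pi_eq fun s hs => ?_).symm⟩
  rw [Measure.map_apply hmeas (MeasurableSet.univ_pi hs)]
  have h1 : (fun (e : Env) (i : Fin k) => e i) ⁻¹' Set.univ.pi s =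
      Set.pi (Finset.range k : Finset ℕ)
        (fun i => if h : i < k then s ⟨i, h⟩ else Set.univ) := by
    ext e
    simp only [Set.mem_preimage, Set.mem_pi, Set.mem_univ, true_implies, Finset.coe_range,
      Set.mem_Iio]
    constructor
    · intro h i hi
      rw [dif_pos hi]
      exact h ⟨i, hi⟩
    · intro h i
      have := h i i.2
      rwa [dif_pos i.2] at this
  rw [h1]
  unfold PP
  rw [Measure.infinitePi_pi _ (fun i hi => by
    have hi' : i < k := Finset.mem_range.1 hi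
    rw [dif_pos hi']
    exact hs _)]
  rw [Finset.prod_range]
  refine Finset.prod_congr rfl fun i _ => ?_
  rw [dif_pos i.2]

theorem mp_FF (p : I) (k : ℕ) :
    MeasurePreserving (FF k) ((bern p).prod (PP p)) (QQ p k) := by
  have h1 := mp_restrict p k
  have h2 := measurePreserving_arrowProdEquivProdArrow ℝ Bool (Fin k)
    (fun _ => expMeasure 1) (fun _ => bern p)
  have h3 := h2.comp h1
  have h4 := (MeasurePreserving.id (bern p)).prod h3
  have h5 : MeasurePreserving
      (fun x : Bool × ((Fin k → ℝ) × (Fin k → Bool)) => (x.2.1, (x.1, x.2.2)))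
      ((bern p).prod ((Measure.pi fun _ : Fin k => expMeasure 1).prod
        (Measure.pi fun _ : Fin k => bern p)))
      ((Measure.pi fun _ : Fin k => expMeasure 1).prod
        ((bern p).prod (Measure.pi fun _ : Fin k => bern p))) := by
    have a1 := (measurePreserving_prodAssoc (bern p) (Measure.pi fun _ : Fin k => expMeasure 1)
      (Measure.pi fun _ : Fin k => bern p)).symm MeasurableEquiv.prodAssoc
    have a2 := (Measure.measurePreserving_swap (μ := bern p)
      (ν := Measure.pi fun _ : Fin k => expMeasure 1)).prod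
      (MeasurePreserving.id (Measure.pi fun _ : Fin k => bern p))
    have a3 := measurePreserving_prodAssoc (Measure.pi fun _ : Fin k => expMeasure 1) (bern p)
      (Measure.pi fun _ : Fin k => bern p)
    exact a3.comp (a2.comp a1)
  have h6 := (MeasurePreserving.id (Measure.pi fun _ : Fin k => expMeasure 1)).prod
    ((measurePreserving_piFinSuccAbove (fun _ : Fin (k + 1) => bern p) 0).symm
      (MeasurableEquiv.piFinSuccAbove (fun _ => Bool) 0))
  have h7 := h6.comp (h5.comp h4)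
  have h8 : FF k = Prod.map id ⇑(MeasurableEquiv.piFinSuccAbove (fun _ => Bool) 0).symm ∘
      (fun x : Bool × ((Fin k → ℝ) × (Fin k → Bool)) => (x.2.1, (x.1, x.2.2))) ∘
        Prod.map id (⇑(MeasurableEquiv.arrowProdEquivProdArrow ℝ Bool (Fin k)) ∘
          fun (e : Env) (i : Fin k) => e i) := by
    funext x
    refine Prod.ext rfl ?_
    funext i
    refine Fin.cases ?_ (fun i => ?_) i
    · simp [FF, MeasurableEquiv.arrowProdEquivProdArrow]
    · simp [FF, MeasurableEquiv.arrowProdEquivProdArrow, Equiv.arrowProdEquivProdArrow]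
  rw [h8]
  exact h7

theorem mp_rev1 {α : Type} [MeasurableSpace α] (μ : Measure α) [SigmaFinite μ] (n : ℕ) :
    MeasurePreserving (fun (x : Fin n → α) (i : Fin n) => x (Fin.rev i))
      (Measure.pi fun _ : Fin n => μ) (Measure.pi fun _ : Fin n => μ) := by
  have hmeas : Measurable (fun (x : Fin n → α) (i : Fin n) => x (Fin.rev i)) :=
    measurable_pi_lambda _ fun i => measurable_pi_apply _
  refine ⟨hmeas, (Measure.pi_eq fun s hs => ?_).symm⟩
  rw [Measure.map_apply hmeas (MeasurableSet.univ_pi hs)]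
  have h1 : (fun (x : Fin n → α) (i : Fin n) => x (Fin.rev i)) ⁻¹' Set.univ.pi s =
      Set.univ.pi (fun i => s (Fin.rev i)) := by
    ext x
    simp only [Set.mem_preimage, Set.mem_pi, Set.mem_univ, true_implies]
    constructor
    · intro h i
      have := h (Fin.rev i)
      rwa [Fin.rev_rev] at this
    · intro h i
      have := h (Fin.rev i)
      rwa [Fin.rev_rev] at this
  rw [h1, Measure.pi_pi]
  exact Equiv.prod_comp Fin.revPerm (fun i => μ (s i))

def RR (k : ℕ) (x : W k) : W k := (fun i => x.1 (Fin.rev i), fun i => x.2 (Fin.rev i))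

theorem mp_RR (p : I) (k : ℕ) : MeasurePreserving (RR k) (QQ p k) (QQ p k) :=
  (mp_rev1 (expMeasure 1) k).prod (mp_rev1 (bern p) (k + 1))

def ext (k : ℕ) (x : W k) : Env := fun i =>
  if h : i < k then (x.1 ⟨i, h⟩, x.2 ⟨i + 1, by omega⟩) else (0, false)

theorem meas_ext (k : ℕ) : Measurable (ext k) := by
  refine measurable_pi_lambda _ fun i => ?_
  by_cases h : i < k
  · simp only [ext, dif_pos h]
    exact ((measurable_pi_apply _).comp measurable_fst).prodMk
      ((measurable_pi_apply _).comp measurable_snd)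
  · simp only [ext, dif_neg h]
    exact measurable_const

def EV (k : ℕ) (t : ℝ) (c c' : Bool) : Set (W k) :=
  {x | x.2 0 = c ∧ x.2 (Fin.last k) = c' ∧ pos (ext k x) k < t ∧ ext k x ∈ IE c c' k}

theorem meas_pos' (k : ℕ) : Measurable fun e : Env => pos e k := by
  unfold pos
  exact Finset.measurable_fun_sum _ fun i _ => (measurable_pi_apply i).fst

theorem meas_EV (k : ℕ) (t : ℝ) (c c' : Bool) : MeasurableSet (EV k t c c') := by
  have e1 : EV k t c c' = (fun x : W k => x.2 0) ⁻¹' {c} ∩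
      ((fun x : W k => x.2 (Fin.last k)) ⁻¹' {c'} ∩
      ((fun x : W k => pos (ext k x) k) ⁻¹' Set.Iio t ∩ (ext k) ⁻¹' (IE c c' k))) := by
    ext x
    simp [EV]
  rw [e1]
  refine MeasurableSet.inter ?_ (MeasurableSet.inter ?_ (MeasurableSet.inter ?_ ?_))
  · exact ((measurable_pi_apply _).comp measurable_snd) (measurableSet_singleton c)
  · exact ((measurable_pi_apply _).comp measurable_snd) (measurableSet_singleton c')
  · exact ((meas_pos' k).comp (meas_ext k)) measurableSet_Iio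
  · exact (meas_ext k) (measurable_IE c c' k)

theorem pos_congr {e e' : Env} {k : ℕ} (h : ∀ i < k, (e i).1 = (e' i).1) {j : ℕ}
    (hj : j ≤ k) : pos e j = pos e' j := by
  unfold pos
  refine Finset.sum_congr rfl fun i hi => ?_
  rw [h i (lt_of_lt_of_le (Finset.mem_range.1 hi) hj)]

theorem IE_congr {e e' : Env} {k : ℕ} (hk : 1 ≤ k) (c c' : Bool) (h : ∀ i < k, e i = e' i)
    (he : e ∈ IE c c' k) : e' ∈ IE c c' k := by
  obtain ⟨A, -, hA⟩ := IE_cylinder c c' k (pos e k) (pos e k + 1) ((e (k - 1)).2) hk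
  have h1 : (fun i : Fin k => e i) ∈ A := (hA e).2 ⟨le_rfl, by linarith, rfl, he⟩
  have h2 : (fun i : Fin k => e i) = (fun i : Fin k => e' i) := by
    funext i
    exact h i i.2
  rw [h2] at h1
  exact ((hA e').1 h1).2.2.2

theorem pre_FF {k : ℕ} (hk : 1 ≤ k) (t : ℝ) (c c' : Bool) :
    (FF k) ⁻¹' (EV k t c c') =
      ({c} : Set Bool) ×ˢ {e : Env | pos e k < t ∧ (e (k - 1)).2 = c' ∧ e ∈ IE c c' k} := by
  ext ⟨b, e⟩
  have h0 : (FF k (b, e)).2 0 = b := rfl
  obtain ⟨n, rfl⟩ : ∃ n, k = n + 1 := ⟨k - 1, by omega⟩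
  have h1 : (FF (n + 1) (b, e)).2 (Fin.last (n + 1)) = (e n).2 := by
    have : Fin.last (n + 1) = Fin.succ (Fin.last n) := rfl
    rw [this]
    simp [FF]
  have h2 : ∀ i < n + 1, ext (n + 1) (FF (n + 1) (b, e)) i = e i := by
    intro i hi
    simp only [ext, dif_pos hi, FF]
    refine Prod.ext rfl ?_
    show (Fin.cons b (fun i : Fin (n + 1) => (e i).2) : Fin (n + 2) → Bool) (Fin.succ ⟨i, hi⟩) = _
    rw [Fin.cons_succ]
  have h3 : pos (ext (n + 1) (FF (n + 1) (b, e))) (n + 1) = pos e (n + 1) :=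
    pos_congr (fun i hi => by rw [h2 i hi]) le_rfl
  simp only [EV, Set.mem_preimage, Set.mem_ofPred_eq, Set.mem_prod, Set.mem_singleton_iff]
  rw [h0, h1, h3, Nat.add_sub_cancel]
  constructor
  · rintro ⟨a1, a2, a3, a4⟩
    exact ⟨a1, a3, a2, IE_congr hk c c' h2 a4⟩
  · rintro ⟨a1, a3, a2, a4⟩
    exact ⟨a1, a2, a3, IE_congr hk c c' (fun i hi => (h2 i hi).symm) a4⟩

/-- colour of the point `i` -/
def cl (k : ℕ) (x : W k) (i : ℕ) : Prop := ∃ h : i < k + 1, x.2 ⟨i, h⟩ = true

theorem col_eq {k : ℕ} {x : W k} {c c' : Bool} (h0 : x.2 0 = c) (h1 : x.2 (Fin.last k) = c')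
    (hk : 1 ≤ k) :
    ∀ i ≤ k, ((if i = k then c' = true else col c (ext k x) i) ↔ cl k x i) := by
  intro i hi
  by_cases hik : i = k
  · subst hik
    rw [if_pos rfl, ← h1]
    exact ⟨fun h => ⟨Nat.lt_succ_self _, h⟩, fun ⟨_, h⟩ => h⟩
  · rw [if_neg hik]
    unfold col
    by_cases hi0 : i = 0
    · subst hi0
      rw [if_pos rfl, ← h0]
      exact ⟨fun h => ⟨Nat.succ_pos _, h⟩, fun ⟨_, h⟩ => h⟩
    · rw [if_neg hi0]
      have h2 : i - 1 < k := by omega
      have h3 : i - 1 + 1 = i := by omega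
      simp only [ext, dif_pos h2, h3]
      exact ⟨fun h => ⟨by omega, h⟩, fun ⟨_, h⟩ => h⟩

theorem EV_iff {k : ℕ} {x : W k} {t : ℝ} {c c' : Bool} (hk : 1 ≤ k) :
    x ∈ EV k t c c' ↔ x.2 0 = c ∧ x.2 (Fin.last k) = c' ∧ pos (ext k x) k < t ∧
      ∃ m : ℕ → ℕ, Stb (pos (ext k x) k) (pos (ext k x)) (cl k x) (Set.Iic k) m ∧
        m 0 = 0 ∧ m k = k := by
  unfold EV IE
  simp only [Set.mem_ofPred_eq]
  constructor
  · rintro ⟨a0, a1, a2, m, a3, a4⟩
    exact ⟨a0, a1, a2, m, congr' a3 (fun i hi => (col_eq a0 a1 hk i hi).symm), a4⟩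
  · rintro ⟨a0, a1, a2, m, a3, a4⟩
    exact ⟨a0, a1, a2, m, congr' a3 (fun i hi => col_eq a0 a1 hk i hi), a4⟩

theorem RR_RR {k : ℕ} (x : W k) : RR k (RR k x) = x := by
  refine Prod.ext ?_ ?_
  · funext i
    simp [RR]
  · funext i
    simp [RR]

theorem ext_RR {k : ℕ} (x : W k) (i : ℕ) (hi : i < k) :
    (ext k (RR k x) i).1 = (ext k x (k - 1 - i)).1 := by
  have h : k - 1 - i < k := by omega
  simp only [ext, dif_pos hi, dif_pos h, RR]
  refine congrArg x.1 (Fin.ext ?_)
  simp only [Fin.val_rev]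
  omega

theorem pos_RR {k : ℕ} (x : W k) : ∀ i ≤ k,
    pos (ext k (RR k x)) i = pos (ext k x) k - pos (ext k x) (k - i) := by
  intro i
  induction i with
  | zero => intro _; simp [pos]
  | succ i ih =>
    intro hi
    have h1 : pos (ext k (RR k x)) (i + 1) = pos (ext k (RR k x)) i + (ext k (RR k x) i).1 :=
      Finset.sum_range_succ _ _
    have h2 : k - i = k - (i + 1) + 1 := by omega
    have h3 : pos (ext k x) (k - i) = pos (ext k x) (k - (i + 1)) +
        (ext k x (k - (i + 1))).1 := by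
      rw [h2]
      exact Finset.sum_range_succ _ _
    rw [h1, ih (by omega), ext_RR x i (by omega), h3]
    have h4 : k - 1 - i = k - (i + 1) := by omega
    rw [h4]
    ring

theorem cl_RR {k : ℕ} (x : W k) (i : ℕ) (hi : i ≤ k) : cl k (RR k x) i ↔ cl k x (k - i) := by
  have h1 : i < k + 1 := by omega
  have h2 : k - i < k + 1 := by omega
  have h3 : (RR k x).2 ⟨i, h1⟩ = x.2 ⟨k - i, h2⟩ := by
    simp only [RR]
    refine congrArg x.2 (Fin.ext ?_)
    simp only [Fin.val_rev]
    omega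
  constructor
  · rintro ⟨_, h⟩
    exact ⟨h2, by rw [← h3]; exact h⟩
  · rintro ⟨_, h⟩
    exact ⟨h1, by rw [h3]; exact h⟩

theorem EV_RR {k : ℕ} {x : W k} {t : ℝ} {c c' : Bool} (hk : 1 ≤ k) (h : x ∈ EV k t c c') :
    RR k x ∈ EV k t c' c := by
  rw [EV_iff hk] at h ⊢
  obtain ⟨a0, a1, a2, m, a3, a4, a5⟩ := h
  have hp : pos (ext k (RR k x)) k = pos (ext k x) k := by
    rw [pos_RR x k le_rfl, Nat.sub_self]
    simp [pos]
  refine ⟨?_, ?_, ?_, fun i => k - m (k - i), ?_, ?_, ?_⟩
  · rw [← a1]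
    show x.2 (Fin.rev 0) = _
    simp
  · rw [← a0]
    show x.2 (Fin.rev (Fin.last k)) = _
    simp
  · rw [hp]
    exact a2
  · rw [hp]
    exact reflect a3 (pos_RR x) (cl_RR x)
  · show k - m (k - 0) = 0
    rw [Nat.sub_zero, a5, Nat.sub_self]
  · show k - m (k - k) = k
    rw [Nat.sub_self, a4, Nat.sub_zero]

theorem bern_singleton (p : I) (b : Bool) :
    bern p {b} = if b = true then ENNReal.ofReal (p : ℝ) else ENNReal.ofReal (1 - (p : ℝ)) := by
  cases b
  · simp [bern]
  · simp [bern]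

theorem QQ_EV (p : I) {k : ℕ} (hk : 1 ≤ k) (t : ℝ) (c c' : Bool) :
    QQ p k (EV k t c c') = bern p {c} *
      PP p {e : Env | pos e k < t ∧ (e (k - 1)).2 = c' ∧ e ∈ IE c c' k} := by
  rw [← (mp_FF p k).measure_preimage (meas_EV k t c c').nullMeasurableSet, pre_FF hk,
    Measure.prod_prod]

end RevAux

open RevAux in
theorem reversal (p : I) (k : ℕ) (hk : 1 ≤ k) (t : ℝ) :
    PP p {e | pos e k < t ∧ (e (k - 1)).2 = true ∧ e ∈ IE false true k} *
        ENNReal.ofReal (1 - (p : ℝ)) =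
      PP p {e | pos e k < t ∧ (e (k - 1)).2 = false ∧ e ∈ IE true false k} *
        ENNReal.ofReal (p : ℝ) := by
  have h1 := QQ_EV p hk t false true
  have h2 := QQ_EV p hk t true false
  have h3 : QQ p k (EV k t false true) = QQ p k (EV k t true false) := by
    rw [← (mp_RR p k).measure_preimage (meas_EV k t true false).nullMeasurableSet]
    congr 1
    ext x
    constructor
    · intro h
      exact EV_RR hk h
    · intro h
      have := EV_RR hk (Set.mem_preimage.1 h)
      rwa [RR_RR] at this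
  rw [bern_singleton, if_neg (by simp)] at h1
  rw [bern_singleton, if_pos rfl] at h2
  rw [mul_comm, ← h1, h3, h2, mul_comm]

end Pool.Agent.TH996.SM
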