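import Pool.Agent.TH996.SM.Core
import Pool.Agent.TH996.SM.Comb

/-!
# Splitting at the partner of the planted point
(project of helper996 on MP_818a86_pr, file by helper558)
-/

set_option autoImplicit false

open MeasureTheory ProbabilityTheory Filter
open scoped ENNReal Topology unitInterval

namespace Pool.Agent.TH996.SM

namespace Split

theorem pos_zero (e : Env) : pos e 0 = 0 := by simp [pos]

theorem pos_succ (e : Env) (k : ℕ) : pos e (k + 1) = pos e k + (e k).1 := by
  unfold pos
  rw [Finset.sum_range_succ]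

theorem pos_mono {e : Env} (he : ∀ k, 0 < (e k).1) : StrictMono (pos e) :=
  strictMono_nat_of_lt_succ fun k => by
    rw [pos_succ]
    linarith [he k]

theorem pos_shift (e : Env) (k i : ℕ) : pos (shift k e) i = pos e (k + i) - pos e k := by
  unfold pos shift
  rw [Finset.sum_range_add_sub_sum_range]

theorem sep {e : Env} (he : ∀ k, 0 < (e k).1) {N i j : ℕ} (hi : i ≤ N) (hj : N < j) :
    (e N).1 ≤ |pos e i - pos e j| := by
  have h1 := (pos_mono he).monotone hi
  have h2 := (pos_mono he).monotone (show N + 1 ≤ j from hj)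
  rw [pos_succ] at h2
  rw [abs_sub_comm]
  exact le_trans (by linarith) (le_abs_self _)

theorem rad_fix {ι : Type} {t : ℝ} {x : ι → ℝ} {m : ι → ι} {i : ι} (h : m i = i) :
    rad t x m i = t := by
  unfold rad; rw [if_pos h]

theorem rad_ne {ι : Type} {t : ℝ} {x : ι → ℝ} {m : ι → ι} {i : ι} (h : m i ≠ i) :
    rad t x m i = |x (m i) - x i| := by
  unfold rad; rw [if_neg h]

/-- the matching of the points strictly between `0` and `k` -/
noncomputable def mid (k : ℕ) (m : ℕ → ℕ) (i : ℕ) : ℕ := if i = 0 ∨ i = k then i else m i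

open Classical in
/-- the matching of the points after `k`, seen from `k` -/
noncomputable def aft (x : ℕ → ℝ) (k : ℕ) (m : ℕ → ℕ) (i : ℕ) : ℕ :=
  if i = 0 then 0 else if |x (m (k + i)) - x (k + i)| < x k then m (k + i) - k else i

end Split

open Split

theorem UU_anti (c : Bool) {t t' : ℝ} (h : t ≤ t') (ht : 0 < t) : UU c t' ⊆ UU c t := by
  rintro e ⟨n, h1, m, h2, h3⟩
  obtain ⟨m', h4, h5⟩ := cut h2 h
  refine ⟨n, h.trans h1, m', h4, ?_⟩
  rcases h5 0 (Nat.zero_le n) with ⟨h6, -⟩ | ⟨h6, -⟩
  · rw [h6, h3]
  · exact h6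

theorem UU_color (t : ℝ) : UU true t ⊆ UU false t := by
  rintro e ⟨n, h1, m, h2, h3⟩
  have hcol : ∀ i, i ≠ 0 → col true e i → col false e i := by
    intro i hi h
    unfold col at h ⊢
    rw [if_neg hi] at h ⊢
    exact h
  have hcol' : ∀ i, col false e i → col true e i := by
    intro i h
    unfold col at h ⊢
    by_cases hi : i = 0
    · rw [if_pos hi]
    · rw [if_neg hi] at h ⊢
      exact h
  refine ⟨n, h1, m, ⟨h2.mem, h2.inv, ?_, h2.lt, ?_⟩, h3⟩
  · intro i hi hne
    have hi0 : i ≠ 0 := by
      rintro rfl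
      exact hne h3
    have hm0 : m i ≠ 0 := by
      intro h
      have := h2.inv i hi
      rw [h, h3] at this
      exact hi0 this.symm
    exact (h2.ok i hi hne).imp (hcol i hi0) (hcol _ hm0)
  · intro i hi j hj hij hr
    exact h2.stab i hi j hj hij (hr.imp (hcol' i) (hcol' j))

theorem UU_first {c : Bool} {t : ℝ} {e : Env} (h : t ≤ (e 0).1) : e ∈ UU c t := by
  refine ⟨0, h, id, ⟨fun i hi => hi, fun _ _ => rfl, fun i _ h => absurd rfl h,
    fun i _ h => absurd rfl h, ?_⟩, rfl⟩
  intro i hi j hj hij
  exfalso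
  apply hij
  have h1 : i ≤ 0 := hi
  have h2 : j ≤ 0 := hj
  omega

theorem split {e : Env} (he : Nice e) {t t' : ℝ} (ht : 0 < t) (htt : t ≤ t')
    (h1 : e ∈ UU false t) (h2 : e ∉ UU false t') :
    ∃ k, 1 ≤ k ∧ t ≤ pos e k ∧ pos e k < t' ∧ (e (k - 1)).2 = true ∧ e ∈ IE false true k ∧
      shift k e ∈ UU true (pos e k) := by
  obtain ⟨n, -, hn⟩ := he.big t' 0
  obtain ⟨m, hm⟩ := exists_stb t' (pos e) (col false e) (Set.finite_Iic n)
  have hmono := pos_mono he.gap
  have hp0 := pos_zero e
  have h0n : (0 : ℕ) ∈ Set.Iic n := Nat.zero_le n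
  have hne : m 0 ≠ 0 := fun h => h2 ⟨n, hn, m, hm, h⟩
  obtain ⟨k, hk⟩ : ∃ k, m 0 = k := ⟨_, rfl⟩
  rw [hk] at hne
  have hk1 : 1 ≤ k := Nat.one_le_iff_ne_zero.2 hne
  have hkn : k ∈ Set.Iic n := hk ▸ hm.mem 0 h0n
  have hkn' : k ≤ n := hkn
  have hmk : m k = 0 := by rw [← hk]; exact hm.inv 0 h0n
  have hpk : 0 < pos e k := by rw [← hp0]; exact hmono (by omega)
  have hlt : pos e k < t' := by
    have h := hm.lt 0 h0n (by rw [hk]; exact hne)
    rw [hk, hp0, sub_zero, abs_of_pos hpk] at h
    exact h
  have hcol0 : ¬ col false e 0 := by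
    unfold col
    rw [if_pos rfl]
    simp
  have hcolk : col false e k := by
    rcases hm.ok 0 h0n (by rw [hk]; exact hne) with h | h
    · exact absurd h hcol0
    · rw [hk] at h; exact h
  have hred : (e (k - 1)).2 = true := by
    unfold col at hcolk
    rwa [if_neg hne] at hcolk
  have hrad0 : rad t' (pos e) m 0 = pos e k := by
    rw [rad_ne (by rw [hk]; exact hne), hk, hp0, sub_zero, abs_of_pos hpk]
  have hradk : rad t' (pos e) m k = pos e k := by
    rw [rad_ne (by rw [hmk]; exact hne.symm), hmk, hp0, zero_sub, abs_neg, abs_of_pos hpk]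
  have hin : ∀ i, 0 < i → i < k → m i ≠ i ∧ 0 < m i ∧ m i < k ∧
      |pos e (m i) - pos e i| ≤ pos e k - pos e i := by
    intro i hi0 hik
    have hi : i ∈ Set.Iic n := (hik.le.trans hkn' : i ≤ n)
    have hpi : 0 < pos e i := by rw [← hp0]; exact hmono hi0
    have hpik : pos e i < pos e k := hmono hik
    have habs : |pos e i - pos e k| = pos e k - pos e i := by
      rw [abs_sub_comm, abs_of_pos (by linarith)]
    have hst := hm.stab i hi k hkn hik.ne (Or.inr hcolk)
    rw [hradk, habs] at hst
    have hle : rad t' (pos e) m i ≤ pos e k - pos e i := by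
      by_contra hc
      exact hst ⟨lt_of_not_ge hc, by linarith⟩
    have hmi : m i ≠ i := by
      intro h
      rw [rad_fix h] at hle
      linarith
    rw [rad_ne hmi] at hle
    refine ⟨hmi, ?_, ?_, hle⟩
    · rcases Nat.eq_zero_or_pos (m i) with h | h
      · exfalso
        have := hm.inv i hi
        rw [h, hk] at this
        omega
      · exact h
    · have h3 : pos e (m i) ≤ pos e k := by linarith [le_abs_self (pos e (m i) - pos e i)]
      have h4 : m i ≤ k := hmono.le_iff_le.1 h3
      rcases h4.lt_or_eq with h5 | h5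
      · exact h5
      · exfalso
        have := hm.inv i hi
        rw [h5, hmk] at this
        omega
  refine ⟨k, hk1, ?_, hlt, hred, ?_, ?_⟩
  · by_contra hc
    push Not at hc
    obtain ⟨m2, h3, h4⟩ := cut hm htt
    have h5 : m2 0 = k := by
      rcases h4 0 h0n with ⟨h6, -⟩ | ⟨-, h6⟩
      · rw [h6, hk]
      · rw [hk, hp0, sub_zero, abs_of_pos hpk] at h6
        linarith
    obtain ⟨n1, h6, m1, h7, h8⟩ := h1
    have h9 := mono_set h3 (S' := Set.Iic (min n n1))
      (fun i hi => (le_trans hi (min_le_left n n1) : i ≤ n)) (by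
        rintro i hi j ⟨hj, hj'⟩
        have hj1 : j ≤ n := hj
        have hj2 : ¬ j ≤ min n n1 := hj'
        have hi1 : i ≤ min n n1 := hi
        have hmin : min n n1 = n1 := by omega
        rw [hmin] at hi1 hj2
        exact h6.trans (sep he.gap hi1 (by omega)))
    have h10 := mono_set h7 (S' := Set.Iic (min n n1))
      (fun i hi => (le_trans hi (min_le_right n n1) : i ≤ n1)) (by
        rintro i hi j ⟨hj, hj'⟩
        have hj1 : j ≤ n1 := hj
        have hj2 : ¬ j ≤ min n n1 := hj'
        have hi1 : i ≤ min n n1 := hi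
        have hmin : min n n1 = n := by omega
        rw [hmin] at hi1 hj2
        exact (htt.trans hn).trans (sep he.gap hi1 (by omega)))
    have h11 := unique (Set.finite_Iic _)
      (fun i _ j _ l _ => he.gen i trivial j trivial l trivial) h9 h10 0 (Nat.zero_le _)
    rw [h5, h8] at h11
    exact hne h11
  · -- the points strictly between `0` and `k`
    have hmid : ∀ i, 0 < i → i < k → mid k m i = m i := by
      intro i h3 h4
      unfold mid
      rw [if_neg (by omega)]
    have hmid0 : mid k m 0 = 0 := by unfold mid; rw [if_pos (Or.inl rfl)]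
    have hmidk : mid k m k = k := by unfold mid; rw [if_pos (Or.inr rfl)]
    have hcases : ∀ i ∈ Set.Iic k, i = 0 ∨ i = k ∨ (0 < i ∧ i < k) := by
      intro i hi
      have : i ≤ k := hi
      omega
    have hrad : ∀ i ∈ Set.Iic k, rad (pos e k) (pos e) (mid k m) i = rad t' (pos e) m i := by
      intro i hi
      rcases hcases i hi with rfl | rfl | ⟨h3, h4⟩
      · rw [rad_fix hmid0, hrad0]
      · rw [rad_fix hmidk, hradk]
      · rw [rad_ne (by rw [hmid i h3 h4]; exact (hin i h3 h4).1), rad_ne (hin i h3 h4).1,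
          hmid i h3 h4]
    refine ⟨mid k m, ⟨?_, ?_, ?_, ?_, ?_⟩, hmid0, hmidk⟩
    · intro i hi
      rcases hcases i hi with rfl | rfl | ⟨h3, h4⟩
      · rw [hmid0]; exact hi
      · rw [hmidk]; exact hi
      · rw [hmid i h3 h4]; exact (hin i h3 h4).2.2.1.le
    · intro i hi
      rcases hcases i hi with rfl | rfl | ⟨h3, h4⟩
      · rw [hmid0, hmid0]
      · rw [hmidk, hmidk]
      · obtain ⟨-, h5, h6, -⟩ := hin i h3 h4
        rw [hmid i h3 h4, hmid _ h5 h6]
        exact hm.inv i (h4.le.trans hkn' : i ≤ n)
    · intro i hi hne'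
      rcases hcases i hi with rfl | rfl | ⟨h3, h4⟩
      · exact absurd hmid0 hne'
      · exact absurd hmidk hne'
      · obtain ⟨h7, h5, h6, -⟩ := hin i h3 h4
        rw [hmid i h3 h4]
        rcases hm.ok i (h4.le.trans hkn' : i ≤ n) h7 with h | h
        · left
          rw [if_neg h4.ne]; exact h
        · right
          rw [if_neg h6.ne]; exact h
    · intro i hi hne'
      rcases hcases i hi with rfl | rfl | ⟨h3, h4⟩
      · exact absurd hmid0 hne'
      · exact absurd hmidk hne'
      · obtain ⟨h7, h5, h6, h8⟩ := hin i h3 h4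
        rw [hmid i h3 h4]
        have hpi : 0 < pos e i := by rw [← hp0]; exact hmono h3
        linarith
    · intro i hi j hj hij hr
      rw [hrad i hi, hrad j hj]
      have hcol : ∀ l, (if l = k then (true : Bool) = true else col false e l) →
          col false e l := by
        intro l hl
        by_cases h : l = k
        · rw [h]; exact hcolk
        · rw [if_neg h] at hl; exact hl
      exact hm.stab i (le_trans hi hkn' : i ≤ n) j (le_trans hj hkn' : j ≤ n) hij
        (hr.imp (hcol i) (hcol j))
  · -- the points after `k`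
    have hout : ∀ i, k < i → i ≤ n → k < m i ∧ m i ≤ n := by
      intro i h3 h4
      refine ⟨?_, hm.mem i h4⟩
      by_contra hc
      have hinv := hm.inv i h4
      have h5 : m i = 0 ∨ m i = k ∨ (0 < m i ∧ m i < k) := by omega
      rcases h5 with h5 | h5 | ⟨h5, h6⟩
      · rw [h5, hk] at hinv
        omega
      · rw [h5, hmk] at hinv
        omega
      · have h7 := hin _ h5 h6
        rw [hinv] at h7
        omega
    have hy : ∀ i j, pos (shift k e) i - pos (shift k e) j = pos e (k + i) - pos e (k + j) := by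
      intro i j
      rw [pos_shift, pos_shift]
      ring
    have ha0 : aft (pos e) k m 0 = 0 := by unfold aft; rw [if_pos rfl]
    have ha1 : ∀ i, i ≠ 0 → |pos e (m (k + i)) - pos e (k + i)| < pos e k →
        aft (pos e) k m i = m (k + i) - k := by
      intro i h3 h4
      unfold aft
      rw [if_neg h3, if_pos h4]
    have ha2 : ∀ i, i ≠ 0 → ¬ |pos e (m (k + i)) - pos e (k + i)| < pos e k →
        aft (pos e) k m i = i := by
      intro i h3 h4
      unfold aft
      rw [if_neg h3, if_neg h4]
    -- the radii do not grow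
    have hrad : ∀ i, i ≤ n - k →
        rad (pos e k) (pos (shift k e)) (aft (pos e) k m) i ≤ rad t' (pos e) m (k + i) := by
      intro i hi
      rcases Nat.eq_zero_or_pos i with rfl | hi0
      · rw [rad_fix ha0, add_zero, hradk]
      by_cases h3 : |pos e (m (k + i)) - pos e (k + i)| < pos e k
      · have h4 := ha1 i hi0.ne' h3
        obtain ⟨h5, h6⟩ := hout (k + i) (by omega) (by omega)
        by_cases h7 : m (k + i) = k + i
        · rw [rad_fix (by rw [h4, h7]; omega), rad_fix h7]
          exact hlt.le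
        · rw [rad_ne (by rw [h4]; omega), rad_ne h7, hy, h4,
            show k + (m (k + i) - k) = m (k + i) by omega]
      · have h4 := ha2 i hi0.ne' h3
        have h7 : m (k + i) ≠ k + i := by
          intro h
          apply h3
          rw [h, sub_self, abs_zero]
          exact hpk
        rw [rad_fix h4, rad_ne h7]
        exact not_lt.1 h3
    have hcol : ∀ i, col true (shift k e) i ↔ col false e (k + i) := by
      intro i
      unfold col shift
      rcases Nat.eq_zero_or_pos i with rfl | hi0
      · rw [if_pos rfl, add_zero, if_neg hne]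
        exact ⟨fun _ => hred, fun _ => rfl⟩
      · rw [if_neg hi0.ne', if_neg (by omega), show k + i - 1 = k + (i - 1) by omega]
    refine ⟨n - k, ?_, aft (pos e) k m, ⟨?_, ?_, ?_, ?_, ?_⟩, ha0⟩
    · unfold shift
      rw [show k + (n - k) = n by omega]
      exact hlt.le.trans hn
    · intro i hi
      have hi' : i ≤ n - k := hi
      show aft (pos e) k m i ≤ n - k
      rcases Nat.eq_zero_or_pos i with rfl | hi0
      · rw [ha0]; exact hi'
      by_cases h3 : |pos e (m (k + i)) - pos e (k + i)| < pos e k
      · rw [ha1 i hi0.ne' h3]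
        obtain ⟨h5, h6⟩ := hout (k + i) (by omega) (by omega)
        omega
      · rw [ha2 i hi0.ne' h3]; exact hi'
    · intro i hi
      have hi' : i ≤ n - k := hi
      rcases Nat.eq_zero_or_pos i with rfl | hi0
      · rw [ha0, ha0]
      by_cases h3 : |pos e (m (k + i)) - pos e (k + i)| < pos e k
      · rw [ha1 i hi0.ne' h3]
        obtain ⟨h5, h6⟩ := hout (k + i) (by omega) (by omega)
        have h7 : k + (m (k + i) - k) = m (k + i) := by omega
        have hinv := hm.inv (k + i) (by show k + i ≤ n; omega)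
        rw [ha1 _ (by omega) (by rw [h7, hinv, abs_sub_comm]; exact h3), h7, hinv]
        omega
      · rw [ha2 i hi0.ne' h3, ha2 i hi0.ne' h3]
    · intro i hi hne'
      have hi' : i ≤ n - k := hi
      rcases Nat.eq_zero_or_pos i with rfl | hi0
      · exact absurd ha0 hne'
      by_cases h3 : |pos e (m (k + i)) - pos e (k + i)| < pos e k
      · have h4 := ha1 i hi0.ne' h3
        rw [h4] at hne' ⊢
        obtain ⟨h5, h6⟩ := hout (k + i) (by omega) (by omega)
        rw [hcol, hcol, show k + (m (k + i) - k) = m (k + i) by omega]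
        exact hm.ok (k + i) (by show k + i ≤ n; omega) (by omega)
      · exact absurd (ha2 i hi0.ne' h3) hne'
    · intro i hi hne'
      have hi' : i ≤ n - k := hi
      rcases Nat.eq_zero_or_pos i with rfl | hi0
      · exact absurd ha0 hne'
      by_cases h3 : |pos e (m (k + i)) - pos e (k + i)| < pos e k
      · have h4 := ha1 i hi0.ne' h3
        obtain ⟨h5, h6⟩ := hout (k + i) (by omega) (by omega)
        rw [hy, h4, show k + (m (k + i) - k) = m (k + i) by omega]
        exact h3
      · exact absurd (ha2 i hi0.ne' h3) hne'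
    · rintro i hi j hj hij hr ⟨h3, h4⟩
      have hi' : i ≤ n - k := hi
      have hj' : j ≤ n - k := hj
      rw [hy] at h3 h4
      exact hm.stab (k + i) (by show k + i ≤ n; omega) (k + j) (by show k + j ≤ n; omega)
        (by omega) (hr.imp (hcol i).1 (hcol j).1)
        ⟨h3.trans_le (hrad i hi'), h4.trans_le (hrad j hj')⟩

end Pool.Agent.TH996.SM
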