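import Pool.Agent.TH996.SM.Core
import Pool.Agent.TH996.SM.Split
import Pool.Agent.TH996.SM.Join
import Pool.Agent.TH996.SM.Meas
import Pool.Agent.TH996.SM.Indep
import Pool.Agent.TH996.SM.Reversal
import Pool.Agent.TH996.SM.Generic

/-!
# Lower bound for the probability that the planted point stays unmatched (job J996-SM-I)
-/

open MeasureTheory ProbabilityTheory Filter
open scoped ENNReal Topology unitInterval

namespace Pool.Agent.TH996.SM

/-! ## Abbreviations -/

/-- red point `k` in the window `[s, t)`, exposed from the blue planted point -/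
def mA (s t : ℝ) (k : ℕ) : Set Env :=
  {e | s ≤ pos e k ∧ pos e k < t ∧ (e (k - 1)).2 = true ∧ e ∈ IE false true k}

/-- blue point `k` in the window `[0, t)`, exposed from the red planted point -/
def mB (t : ℝ) (k : ℕ) : Set Env :=
  {e | 0 ≤ pos e k ∧ pos e k < t ∧ (e (k - 1)).2 = false ∧ e ∈ IE true false k}

theorem main_pos_nonneg {e : Env} (he : Nice e) (k : ℕ) : 0 ≤ pos e k :=
  Finset.sum_nonneg fun i _ => (he.gap i).le

theorem main_measurable_shift (k : ℕ) : Measurable (shift k) :=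
  measurable_pi_lambda _ fun i => measurable_pi_apply (k + i)

theorem main_measurable_restr (k : ℕ) :
    Measurable (fun e : Env => (fun i : Fin k => e i)) :=
  measurable_pi_lambda _ fun i => measurable_pi_apply (i : ℕ)

theorem main_mA_meas (s t : ℝ) {k : ℕ} (hk : 1 ≤ k) : MeasurableSet (mA s t k) := by
  obtain ⟨A, hA, h⟩ := IE_cylinder false true k s t true hk
  have : mA s t k = (fun e : Env => (fun i : Fin k => e i)) ⁻¹' A := by
    ext e; exact (h e).symm
  rw [this]
  exact main_measurable_restr k hA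

theorem main_mA_prob (p : I) (s t : ℝ) {k : ℕ} (hk : 1 ≤ k) {U : Set Env}
    (hU : MeasurableSet U) :
    PP p {e | e ∈ mA s t k ∧ shift k e ∈ U} = PP p (mA s t k) * PP p U := by
  obtain ⟨A, hA, h⟩ := IE_cylinder false true k s t true hk
  have h1 := indep_shift p k hA hU
  have h2 : {e : Env | (fun i : Fin k => e i) ∈ A} = mA s t k := by
    ext e; exact h e
  have h3 : {e : Env | (fun i : Fin k => e i) ∈ A ∧ shift k e ∈ U} =
      {e | e ∈ mA s t k ∧ shift k e ∈ U} := by
    ext e; exact and_congr (h e) Iff.rfl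
  rw [h2, h3] at h1
  exact h1

theorem main_mB_meas (t : ℝ) {k : ℕ} (hk : 1 ≤ k) : MeasurableSet (mB t k) := by
  obtain ⟨A, hA, h⟩ := IE_cylinder true false k 0 t false hk
  have : mB t k = (fun e : Env => (fun i : Fin k => e i)) ⁻¹' A := by
    ext e; exact (h e).symm
  rw [this]
  exact main_measurable_restr k hA

theorem main_mB_prob (p : I) (t : ℝ) {k : ℕ} (hk : 1 ≤ k) {U : Set Env}
    (hU : MeasurableSet U) :
    PP p {e | e ∈ mB t k ∧ shift k e ∈ U} = PP p (mB t k) * PP p U := by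
  obtain ⟨A, hA, h⟩ := IE_cylinder true false k 0 t false hk
  have h1 := indep_shift p k hA hU
  have h2 : {e : Env | (fun i : Fin k => e i) ∈ A} = mB t k := by
    ext e; exact h e
  have h3 : {e : Env | (fun i : Fin k => e i) ∈ A ∧ shift k e ∈ U} =
      {e | e ∈ mB t k ∧ shift k e ∈ U} := by
    ext e; exact and_congr (h e) Iff.rfl
  rw [h2, h3] at h1
  exact h1

theorem main_UU_pos (p : I) (c : Bool) (t : ℝ) : 0 < PP p (UU c t) :=
  (first_gap p t).trans_le (measure_mono fun _ he => UU_first he)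

/-- the blue exposed points: total mass at most one -/
theorem main_sum_mB (p : I) (t : ℝ) : ∑' k : ℕ, PP p (mB t (k + 1)) ≤ 1 := by
  set G : ℝ≥0∞ := PP p (UU false t) with hG
  have hG0 : G ≠ 0 := (main_UU_pos p false t).ne'
  have hGt : G ≠ ⊤ := measure_ne_top _ _
  set W : ℕ → Set Env := fun k => {e | e ∈ mB t (k + 1) ∧ shift (k + 1) e ∈ UU false t} with hW
  have hWm : ∀ k, MeasurableSet (W k) := fun k =>
    (main_mB_meas t (Nat.le_add_left 1 k)).inter
      (main_measurable_shift (k + 1) (measurable_UU false t))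
  have hnice := nice_ae p
  have hd : Pairwise (Function.onFun (AEDisjoint (PP p)) W) := by
    intro k l hkl
    refine measure_mono_null (fun e he => ?_) (ae_iff.1 hnice)
    intro hn
    obtain ⟨⟨⟨_, h1, h2, h3⟩, h4⟩, ⟨⟨_, h1', h2', h3'⟩, h4'⟩⟩ := he
    have := join_unique hn (Nat.le_add_left 1 k) (Nat.le_add_left 1 l) h1 h2 h3 h4 h1' h2' h3' h4'
    exact hkl (Nat.succ_injective this)
  have hU : PP p (⋃ k, W k) = ∑' k, PP p (W k) :=
    measure_iUnion₀ hd fun k => (hWm k).nullMeasurableSet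
  have hle : PP p (⋃ k, W k) ≤ G := by
    refine measure_mono_ae ?_
    filter_upwards [hnice] with e hn he
    obtain ⟨k, ⟨_, h1, h2, h3⟩, h4⟩ := Set.mem_iUnion.1 he
    exact join_mem hn (Nat.le_add_left 1 k) h1 h2 h3 h4
  rw [hU] at hle
  have h2 : ∑' k, PP p (W k) = (∑' k : ℕ, PP p (mB t (k + 1))) * G := by
    rw [← ENNReal.tsum_mul_right]
    exact tsum_congr fun k => main_mB_prob p t (Nat.le_add_left 1 k) (measurable_UU false t)
  rw [h2] at hle
  have h3 : (∑' k : ℕ, PP p (mB t (k + 1))) * G ≤ 1 * G := by rwa [one_mul]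
  exact (ENNReal.mul_le_mul_iff_left hG0 hGt).1 h3

/-- the total mass of the red exposed points before `t` -/
noncomputable def mM (p : I) (t : ℝ) : ℝ≥0∞ := ∑' k : ℕ, PP p (mA 0 t (k + 1))

theorem main_mM_le (p : I) (hp : (p : ℝ) < 1) (t : ℝ) :
    mM p t ≤ (ENNReal.ofReal (1 - (p : ℝ)))⁻¹ := by
  have hq0 : ENNReal.ofReal (1 - (p : ℝ)) ≠ 0 := by
    rw [Ne, ENNReal.ofReal_eq_zero]; linarith
  have hqt : ENNReal.ofReal (1 - (p : ℝ)) ≠ ⊤ := ENNReal.ofReal_ne_top
  have hnice := nice_ae p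
  have h1 : ∀ k : ℕ, PP p (mA 0 t (k + 1)) * ENNReal.ofReal (1 - (p : ℝ)) ≤
      PP p (mB t (k + 1)) := by
    intro k
    have hr := reversal p (k + 1) (Nat.le_add_left 1 k) t
    have ha : PP p (mA 0 t (k + 1)) ≤
        PP p {e | pos e (k + 1) < t ∧ (e (k + 1 - 1)).2 = true ∧ e ∈ IE false true (k + 1)} :=
      measure_mono fun e he => he.2
    have hb : PP p {e | pos e (k + 1) < t ∧ (e (k + 1 - 1)).2 = false ∧
        e ∈ IE true false (k + 1)} ≤ PP p (mB t (k + 1)) := by
      refine measure_mono_ae ?_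
      filter_upwards [hnice] with e hn he
      exact ⟨main_pos_nonneg hn _, he⟩
    have hp1 : ENNReal.ofReal (p : ℝ) ≤ 1 := by
      rw [ENNReal.ofReal_le_one]; exact hp.le
    calc PP p (mA 0 t (k + 1)) * ENNReal.ofReal (1 - (p : ℝ))
        ≤ _ := mul_le_mul_left ha _
      _ = _ := hr
      _ ≤ PP p (mB t (k + 1)) * 1 := mul_le_mul' hb hp1
      _ = _ := mul_one _
  have h2 : mM p t * ENNReal.ofReal (1 - (p : ℝ)) ≤ 1 := by
    unfold mM
    rw [← ENNReal.tsum_mul_right]
    exact (ENNReal.tsum_le_tsum h1).trans (main_sum_mB p t)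
  rw [ENNReal.le_inv_iff_mul_le]
  exact h2

theorem main_mM_mono (p : I) {s t : ℝ} (h : s ≤ t) : mM p s ≤ mM p t :=
  ENNReal.tsum_le_tsum fun _ => measure_mono fun _ he => ⟨he.1, he.2.1.trans_le h, he.2.2⟩

theorem main_mM_split (p : I) {s t : ℝ} (h0 : 0 ≤ s) (h : s ≤ t) :
    mM p s + ∑' k : ℕ, PP p (mA s t (k + 1)) = mM p t := by
  unfold mM
  rw [← ENNReal.tsum_add]
  refine tsum_congr fun k => ?_
  rw [← measure_union ?_ (main_mA_meas s t (Nat.le_add_left 1 k))]
  · congr 1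
    ext e
    simp only [mA, Set.mem_union, Set.mem_ofPred_eq]
    constructor
    · rintro (⟨h1, h2, h3⟩ | ⟨h1, h2, h3⟩)
      · exact ⟨h1, h2.trans_le h, h3⟩
      · exact ⟨h0.trans h1, h2, h3⟩
    · rintro ⟨h1, h2, h3⟩
      rcases lt_or_ge (pos e (k + 1)) s with h4 | h4
      · exact Or.inl ⟨h1, h4, h3⟩
      · exact Or.inr ⟨h4, h2, h3⟩
  · rw [Set.disjoint_left]
    intro e h1 h2
    exact absurd h1.2.1 (not_lt.2 h2.1)

/-- one step of the comparison -/
theorem main_step (p : I) {s t : ℝ} (hs : 0 < s) (h : s ≤ t) :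
    PP p (UU false s) ≤ PP p (UU false t) +
      (∑' k : ℕ, PP p (mA s t (k + 1))) * PP p (UU false s) := by
  have hnice := nice_ae p
  set V : ℕ → Set Env := fun k => {e | e ∈ mA s t (k + 1) ∧ shift (k + 1) e ∈ UU true s} with hV
  have h1 : PP p (UU false s) ≤ PP p (UU false t ∪ ⋃ k, V k) := by
    refine measure_mono_ae ?_
    filter_upwards [hnice] with e hn he
    by_cases ht : e ∈ UU false t
    · exact Or.inl ht
    · right
      obtain ⟨k, hk, h1, h2, h3, h4, h5⟩ := split hn hs h he ht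
      obtain ⟨l, rfl⟩ : ∃ l, k = l + 1 := ⟨k - 1, by omega⟩
      exact Set.mem_iUnion.2 ⟨l, ⟨h1, h2, h3, h4⟩, UU_anti true h1 hs h5⟩
  refine h1.trans ((measure_union_le _ _).trans (add_le_add le_rfl ?_))
  refine (measure_iUnion_le _).trans ?_
  rw [← ENNReal.tsum_mul_right]
  refine ENNReal.tsum_le_tsum fun k => ?_
  rw [hV]
  simp only
  rw [main_mA_prob p s t (Nat.le_add_left 1 k) (measurable_UU true s)]
  exact mul_le_mul' le_rfl (measure_mono (UU_color s))

theorem main_prob (p : I) (hp : (p : ℝ) < 1) : ∃ δ : ℝ≥0∞, 0 < δ ∧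
    ∀ t : ℕ, δ ≤ PP p (UU false (t : ℝ)) := by
  have hq0 : ENNReal.ofReal (1 - (p : ℝ)) ≠ 0 := by
    rw [Ne, ENNReal.ofReal_eq_zero]; linarith
  have hmono : Monotone fun n : ℕ => mM p n := fun a b hab =>
    main_mM_mono p (by exact_mod_cast hab)
  set M : ℝ≥0∞ := ⨆ n : ℕ, mM p n with hM
  have hMt : M ≠ ⊤ :=
    ((iSup_le fun n : ℕ => main_mM_le p hp n).trans_lt
      (ENNReal.inv_lt_top.2 (pos_iff_ne_zero.2 hq0))).ne
  have hlim : Tendsto (fun n : ℕ => mM p n + 2⁻¹) atTop (𝓝 (M + 2⁻¹)) :=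
    (tendsto_atTop_iSup hmono).add_const _
  have hlt : M < M + 2⁻¹ := ENNReal.lt_add_right hMt (by simp)
  obtain ⟨N, hN, hN1⟩ := ((hlim.eventually (lt_mem_nhds hlt)).and
    (eventually_ge_atTop 1)).exists
  have hNpos : (0 : ℝ) < N := by exact_mod_cast hN1
  have hfin : mM p N ≠ ⊤ := ne_top_of_le_ne_top hMt (le_iSup (fun n : ℕ => mM p n) N)
  refine ⟨PP p {e | (N : ℝ) ≤ (e 0).1} / 2, ENNReal.half_pos (first_gap p N).ne', fun t => ?_⟩
  rcases le_total t N with ht | ht
  · refine ENNReal.half_le_self.trans (measure_mono fun e he => UU_first ?_)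
    exact le_trans (by exact_mod_cast ht) he
  · have htr : (N : ℝ) ≤ (t : ℝ) := by exact_mod_cast ht
    have hsplit := main_mM_split p hNpos.le htr
    have hsum : ∑' k : ℕ, PP p (mA N t (k + 1)) ≤ 2⁻¹ := by
      have h1 : mM p N + ∑' k : ℕ, PP p (mA N t (k + 1)) < mM p N + 2⁻¹ := by
        rw [hsplit]
        exact (le_iSup (fun n : ℕ => mM p n) t).trans_lt hN
      exact ((ENNReal.add_lt_add_iff_left hfin).1 h1).le
    have hstep := main_step p hNpos htr
    set G : ℝ≥0∞ := PP p (UU false (N : ℝ)) with hG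
    have hGt : G ≠ ⊤ := measure_ne_top _ _
    have h2 : G ≤ PP p (UU false (t : ℝ)) + G / 2 := by
      refine hstep.trans (add_le_add le_rfl ?_)
      rw [div_eq_mul_inv, mul_comm G]
      exact mul_le_mul' hsum le_rfl
    have h3 : G / 2 ≤ PP p (UU false (t : ℝ)) := by
      have h4 : G / 2 + G / 2 ≤ PP p (UU false (t : ℝ)) + G / 2 := by
        rwa [ENNReal.add_halves]
      exact (ENNReal.add_le_add_iff_right (ENNReal.div_ne_top hGt two_ne_zero)).1 h4
    refine le_trans (ENNReal.div_le_div_right (measure_mono fun e he => UU_first he) 2) h3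

end Pool.Agent.TH996.SM
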